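import Mathlib

set_option autoImplicit false

/-!
# Project GL+ (MP_120218, helper62): isolation uniform in the rank, definitions

A SHAPE is a list of pairs `(p, n)`, `p` a prime and `n` a number of shifts. The box of a shape is
the set of all lists `t` of the same length with `t_j < n_j`.
-/

namespace Pool.Agent.Helper62.GLP

/-- `t` is in the box of the shape `s` -/
def InBox (s : List (ℕ × ℕ)) (t : List ℕ) : Prop := List.Forall₂ (fun q a => a < q.2) s t

/-- `v_p (D (t_1, ..., t_m))`, `p = p_j`, depends only on `t_1, ..., t_j` and is injective in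
`t_j`, for every `j` -/
def Good : List (ℕ × ℕ) → (List ℕ → ℕ) → Prop
  | [], _ => True
  | (p, n) :: s, D => (∃ c : ℕ → ℕ, (∀ i < n, ∀ j < n, c i = c j → i = j) ∧
      ∀ i < n, ∀ t, InBox s t → padicValNat p (D (i :: t)) = c i) ∧
      ∀ i < n, Good s (fun t => D (i :: t))

end Pool.Agent.Helper62.GLP
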