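import Pool.Agent.Helper62.GLP.Main

set_option autoImplicit false

/-!
# Project GL+ (MP_120218, helper62): decoding
-/

namespace Pool.Agent.Helper62.GLP

open Finset Pool.Agent.Helper15.GL

theorem amgm {α : Type} (Ω : Finset α) (hΩ : Ω.Nonempty) (E : α → ℝ) (B : ℝ)
    (h : ∑ a ∈ Ω, Real.exp (-E a) ≤ B) :
    Real.log Ω.card - (∑ a ∈ Ω, E a) / Ω.card ≤ Real.log B := by
  have hc : (0 : ℝ) < Ω.card := by exact_mod_cast hΩ.card_pos
  obtain ⟨m, hm⟩ : ∃ m, m = (∑ a ∈ Ω, E a) / Ω.card := ⟨_, rfl⟩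
  have h1 : ∀ a ∈ Ω, Real.exp (-m) * (1 + (m - E a)) ≤ Real.exp (-E a) := by
    intro a _
    have h2 := Real.add_one_le_exp (m - E a)
    calc Real.exp (-m) * (1 + (m - E a)) ≤ Real.exp (-m) * Real.exp (m - E a) :=
          mul_le_mul_of_nonneg_left (by linarith) (Real.exp_pos _).le
      _ = Real.exp (-E a) := by
          rw [← Real.exp_add]
          congr 1
          ring
  have h2 := Finset.sum_le_sum h1
  rw [← Finset.mul_sum, Finset.sum_add_distrib, Finset.sum_sub_distrib, Finset.sum_const,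
    Finset.sum_const, nsmul_eq_mul, nsmul_eq_mul, mul_one] at h2
  have h3 : (Ω.card : ℝ) * m = ∑ a ∈ Ω, E a := by
    rw [hm]
    field_simp
  rw [h3, sub_self, add_zero] at h2
  have h4 : Real.exp (-m) * Ω.card ≤ B := h2.trans h
  have h5 := Real.log_le_log (mul_pos (Real.exp_pos _) hc) h4
  rw [Real.log_mul (Real.exp_pos _).ne' hc.ne', Real.log_exp] at h5
  rw [← hm]
  linarith

theorem log_list_prod (s : List (ℕ × ℕ)) :
    Real.log ((s.map (fun q => (q.2 : ℝ) + 2)).prod) =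
      (s.map (fun q => Real.log ((q.2 : ℝ) + 2))).sum ∧
    0 < (s.map (fun q => (q.2 : ℝ) + 2)).prod := by
  induction s with
  | nil => simp
  | cons q s ih =>
    have h1 : (0 : ℝ) < (q.2 : ℝ) + 2 := by positivity
    rw [List.map_cons, List.prod_cons, List.map_cons, List.sum_cons,
      Real.log_mul h1.ne' ih.2.ne', ih.1]
    exact ⟨rfl, mul_pos h1 ih.2⟩

/-- the sums of all codes -/
theorem sum_codes (X W A : Finset ℤ) (P : Finset ℕ) (hP : ∀ d ∈ P, d ≠ 0) (d : ℤ → ℕ)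
    (hd : ∀ z ∈ W, d z ∈ P ∧ (d z : ℤ) * z ∈ A) (F : ℕ → ℤ → ℤ → ℝ)
    (hF : ∀ D x y, 0 ≤ F D x y) (M : ℝ)
    (hK : ∀ D ∈ P, ∀ σ, psum X (sm D W) (F D) σ ≤ M) :
    ∑ q ∈ W ×ˢ X, F (d q.1) q.2 ((d q.1 : ℤ) * q.1) ≤
      P.card * ((Finset.image₂ (fun a b => a + b) X A).card * M) := by
  classical
  obtain ⟨S, hS⟩ : ∃ S : Finset ℤ, S = Finset.image₂ (fun a b => a + b) X A := ⟨_, rfl⟩
  rw [← hS]
  have h1 := Finset.sum_fiberwise_of_maps_to (s := W ×ˢ X) (t := P) (g := fun q => d q.1)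
    (fun q hq => (hd q.1 (Finset.mem_product.1 hq).1).1)
    (fun q => F (d q.1) q.2 ((d q.1 : ℤ) * q.1))
  rw [← h1]
  have h2 : ∀ D ∈ P, ∑ q ∈ (W ×ˢ X).filter (fun q => d q.1 = D),
      F (d q.1) q.2 ((d q.1 : ℤ) * q.1) ≤ S.card * M := by
    intro D hD
    have hD0 : (D : ℤ) ≠ 0 := by exact_mod_cast hP D hD
    have h3 : ∀ q ∈ (W ×ˢ X).filter (fun q => d q.1 = D), q.2 + (D : ℤ) * q.1 ∈ S := by
      intro q hq
      rw [Finset.mem_filter, Finset.mem_product] at hq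
      rw [hS]
      refine Finset.mem_image₂_of_mem hq.1.2 ?_
      rw [← hq.2]
      exact (hd q.1 hq.1.1).2
    rw [← Finset.sum_fiberwise_of_maps_to h3]
    have h4 : ∀ σ ∈ S, ∑ q ∈ ((W ×ˢ X).filter (fun q => d q.1 = D)).filter
        (fun q => q.2 + (D : ℤ) * q.1 = σ), F (d q.1) q.2 ((d q.1 : ℤ) * q.1) ≤ M := by
      intro σ _
      refine le_trans ?_ (hK D hD σ)
      unfold psum
      obtain ⟨Q, hQ⟩ : ∃ Q, Q = ((W ×ˢ X).filter (fun q => d q.1 = D)).filter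
        (fun q => q.2 + (D : ℤ) * q.1 = σ) := ⟨_, rfl⟩
      have memQ : ∀ q, q ∈ Q ↔ ((q.1 ∈ W ∧ q.2 ∈ X) ∧ d q.1 = D) ∧ q.2 + (D : ℤ) * q.1 = σ := by
        intro q
        rw [hQ, Finset.mem_filter, Finset.mem_filter, Finset.mem_product]
      rw [← hQ]
      have h5 : ∑ q ∈ Q, F (d q.1) q.2 ((d q.1 : ℤ) * q.1) =
          ∑ q ∈ Q, F D q.2 (σ - q.2) := by
        refine Finset.sum_congr rfl fun q hq => ?_
        have h6 := (memQ q).1 hq
        rw [h6.1.2, ← h6.2, add_sub_cancel_left]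
      have h6 : ∑ q ∈ Q, F D q.2 (σ - q.2) = ∑ x ∈ Q.image (fun q => q.2), F D x (σ - x) := by
        rw [Finset.sum_image]
        intro q hq q' hq' h
        have h7 := (memQ q).1 (Finset.mem_coe.1 hq)
        have h8 := (memQ q').1 (Finset.mem_coe.1 hq')
        have h9 : q.2 = q'.2 := h
        have h10 : (D : ℤ) * q.1 = (D : ℤ) * q'.1 := by
          have := h7.2.trans h8.2.symm
          rw [h9] at this
          exact add_left_cancel this
        exact Prod.ext (mul_left_cancel₀ hD0 h10) h9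
      rw [h5, h6]
      refine Finset.sum_le_sum_of_subset_of_nonneg ?_ fun x _ _ => hF _ _ _
      intro x hx
      obtain ⟨q, hq, rfl⟩ := Finset.mem_image.1 hx
      have h7 := (memQ q).1 hq
      refine Finset.mem_filter.2 ⟨h7.1.1.2, mem_sm.2 ⟨q.1, h7.1.1.1, ?_⟩⟩
      show (D : ℤ) * q.1 = σ - q.2
      rw [← h7.2, add_sub_cancel_left]
    refine (Finset.sum_le_sum h4).trans (le_of_eq ?_)
    rw [Finset.sum_const, nsmul_eq_mul]
  refine (Finset.sum_le_sum h2).trans (le_of_eq ?_)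
  rw [Finset.sum_const, nsmul_eq_mul]

/-- **Decoding.** If every `z ∈ W` has a tree of multipliers `D t ∈ P`, `D t * z ∈ A`, then `X + A`
is large. -/
theorem decode (η : ℝ) (hη : 0 < η) : ∃ ε : ℝ, 0 < ε ∧
    ∀ (s : List (ℕ × ℕ)) (X W A : Finset ℤ) (P : Finset ℕ) (I : ℝ),
      (∀ q ∈ s, q.1.Prime ∧ 2 ≤ q.2) → X.Nonempty → W.Nonempty → (∀ d ∈ P, d ≠ 0) → 0 < I →
      Real.log X.card + Real.log W.card ≤ I →
      (∀ z ∈ W, ∃ D : List ℕ → ℕ, Good s D ∧ ∀ t, InBox s t → D t ∈ P ∧ (D t : ℤ) * z ∈ A) →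
      (1 - η - Real.exp (-(ε * (s.map (fun q => (q.2 : ℝ))).sum / I))) *
          (Real.log X.card + Real.log W.card) - Real.log P.card -
          (s.map (fun q => Real.log ((q.2 : ℝ) + 2))).sum ≤
        Real.log ((Finset.image₂ (fun a b => a + b) X A).card) := by
  classical
  obtain ⟨h, hh⟩ : ∃ h, h = min η 1 := ⟨_, rfl⟩
  have hh0 : 0 < h := by rw [hh]; exact lt_min hη one_pos
  have hh1 : h ≤ 1 := by rw [hh]; exact min_le_right _ _
  have hhη : h ≤ η := by rw [hh]; exact min_le_left _ _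
  obtain ⟨t0, ht0, ht1, hnode⟩ := node_code (h / 4) (by positivity) (by linarith)
  have hN : NodeP (h / 4) t0 := hnode
  obtain ⟨K, hK⟩ : ∃ K, K = 8 / h := ⟨_, rfl⟩
  have hK8 : 8 ≤ K := by
    rw [hK, le_div_iff₀ hh0]
    linarith
  have hK0 : 0 < K := by linarith
  obtain ⟨e, he⟩ : ∃ e, e = h ^ 2 / 128 := ⟨_, rfl⟩
  have he0 : 0 < e := by rw [he]; positivity
  have he1 : e ≤ 1 := by
    rw [he]
    nlinarith
  have hKe : 4 * K * e = h / 4 := by
    rw [hK, he]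
    field_simp
    norm_num
  have h2K : 2 / K = h / 4 := by
    rw [hK]
    field_simp
    norm_num
  obtain ⟨ε, hε⟩ : ∃ ε, ε = h / 4 * t0 * e / (4 * K) := ⟨_, rfl⟩
  have hε0 : 0 < ε := by rw [hε]; positivity
  refine ⟨ε / (4 * K), by positivity, ?_⟩
  intro s X W A P I hs hX hW hP hI huI hD
  have hD' : ∀ z : ℤ, ∃ D : List ℕ → ℕ, z ∈ W →
      (Good s D ∧ ∀ t, InBox s t → D t ∈ P ∧ (D t : ℤ) * z ∈ A) := by
    intro z
    by_cases hz : z ∈ W
    · obtain ⟨D, h1⟩ := hD z hz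
      exact ⟨D, fun _ => h1⟩
    · exact ⟨fun _ => 0, fun h1 => absurd h1 hz⟩
  choose D hD using hD'
  have hXc : (0 : ℝ) < X.card := by exact_mod_cast hX.card_pos
  have hWc : (0 : ℝ) < W.card := by exact_mod_cast hW.card_pos
  obtain ⟨u, hu⟩ : ∃ u, u = Real.log X.card + Real.log W.card := ⟨_, rfl⟩
  have hu0 : 0 ≤ u := by
    rw [hu]
    exact add_nonneg (Real.log_natCast_nonneg _) (Real.log_natCast_nonneg _)
  obtain ⟨V, hV⟩ : ∃ V, V = Real.log P.card +
    Real.log ((Finset.image₂ (fun a b => a + b) X A).card) +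
      (s.map (fun q => Real.log ((q.2 : ℝ) + 2))).sum := ⟨_, rfl⟩
  -- the main inequality
  have hkey : ∀ t, InBox s t → (u - V) * (W.card * X.card) ≤
      ∑ z ∈ W, ∑ x ∈ X, mc (h / 4) t0 K ε s X (sm (D z t) W) x ((D z t : ℤ) * z) := by
    intro t ht
    obtain ⟨z0, hz0⟩ := hW
    have hz0' := (hD z0 hz0).2 t ht
    have hPc : (0 : ℝ) < P.card := by exact_mod_cast Finset.card_pos.2 ⟨_, hz0'.1⟩
    have hSc : (0 : ℝ) < (Finset.image₂ (fun a b => a + b) X A).card := by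
      obtain ⟨x0, hx0⟩ := hX
      exact_mod_cast Finset.card_pos.2 ⟨_, Finset.mem_image₂_of_mem hx0 hz0'.2⟩
    obtain ⟨hlog, hMpos⟩ := log_list_prod s
    have h1 := sum_codes X W A P hP (fun z => D z t) (fun z hz => (hD z hz).2 t ht)
      (fun D x y => Real.exp (-mc (h / 4) t0 K ε s X (sm D W) x y))
      (fun _ _ _ => (Real.exp_pos _).le) ((s.map (fun q => (q.2 : ℝ) + 2)).prod)
      (fun D _ σ => mc_kraft K ε hN s (fun q hq => (hs q hq).1.two_le) X (sm D W) σ)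
    have h2 := amgm (W ×ˢ X) (Finset.Nonempty.product ⟨z0, hz0⟩ hX)
      (fun q => mc (h / 4) t0 K ε s X (sm (D q.1 t) W) q.2 ((D q.1 t : ℤ) * q.1)) _ h1
    rw [Real.log_mul hPc.ne' (mul_pos hSc hMpos).ne', Real.log_mul hSc.ne' hMpos.ne', hlog,
      Finset.card_product, Nat.cast_mul, Real.log_mul hWc.ne' hXc.ne', Finset.sum_product] at h2
    have h3 : u - V ≤ (∑ z ∈ W, ∑ x ∈ X, mc (h / 4) t0 K ε s X (sm (D z t) W) x
        ((D z t : ℤ) * z)) / (W.card * X.card) := by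
      rw [hu, hV]
      linarith
    rwa [le_div_iff₀ (mul_pos hWc hXc)] at h3
  have h1 := Av_mono s _ _ hkey
  rw [Av_const s (fun q hq => by have := (hs q hq).2; omega), Av_sum] at h1
  have h2 : ∀ z ∈ W, Av s (fun t => ∑ x ∈ X, mc (h / 4) t0 K ε s X (sm (D z t) W) x
      ((D z t : ℤ) * z)) ≤ X.card * ((h / 2 + th K ε I s) * u) := by
    intro z hz
    have h3 := main_ind hN (by positivity) (by linarith) ht0 ht1 hK8 he0 he1 hI s hs X W z (D z)
      hz hX (hD z hz).1 (fun t ht => hP _ ((hD z hz).2 t ht).1) huI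
    rw [← hε, ← hu, hKe] at h3
    refine h3.trans (le_of_eq ?_)
    ring
  have h3 := h1.trans (Finset.sum_le_sum h2)
  rw [Finset.sum_const, nsmul_eq_mul] at h3
  have h4 : u - V ≤ (h / 2 + th K ε I s) * u := by
    have h5 : (W.card : ℝ) * (X.card * ((h / 2 + th K ε I s) * u)) =
        ((h / 2 + th K ε I s) * u) * (W.card * X.card) := by ring
    rw [h5] at h3
    exact le_of_mul_le_mul_right h3 (mul_pos hWc hXc)
  have h5 : th K ε I s ≤ h / 4 + Real.exp (-(ε / (4 * K) *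
      (s.map (fun q => (q.2 : ℝ))).sum / I)) := by
    refine (th_le (by linarith) hε0.le hI s).trans ?_
    rw [h2K]
    have h6 := Real.exp_pos (-(ε / (4 * K) * (s.map (fun q => (q.2 : ℝ))).sum / I))
    exact max_le (by linarith) (by linarith)
  have h6 : (h / 2 + th K ε I s) * u ≤ (η + Real.exp (-(ε / (4 * K) *
      (s.map (fun q => (q.2 : ℝ))).sum / I))) * u :=
    mul_le_mul_of_nonneg_right (by linarith) hu0
  rw [← hu]
  rw [hV] at h4
  linarith

end Pool.Agent.Helper62.GLP
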