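import Mathlib

set_option autoImplicit false

/-!
# Project GL+ (MP_120218, helper62): few shifts are bad

`α`, `β` are two sequences of non-negative numbers. Among `n` different shifts `c` there are few
for which big terms of `α` and terms of `β` shifted by `c` meet too often at the beginning.
-/

namespace Pool.Agent.Helper62.GLP

open Finset

/-- `β` shifted by `c` -/
def shf (β : ℕ → ℝ) (c l : ℕ) : ℝ := if c ≤ l then β (l - c) else 0

/-- the sum of the coincidences up to the level `l` -/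
noncomputable def Lam (t0 b : ℝ) (α β : ℕ → ℝ) (c l : ℕ) : ℝ := by
  classical exact ∑ i ∈ Finset.range l, if t0 ≤ α i ∧ b ≤ shf β c i then shf β c i else 0

/-- the shift `c` is bad -/
def Bad (t0 b R e : ℝ) (α β : ℕ → ℝ) (c : ℕ) : Prop :=
  ∃ l, ∑ i ∈ Finset.range l, α i + ∑ i ∈ Finset.range (l - c), β i < R ∧
    e * R < Lam t0 b α β c (l + 1)

theorem card_big {α : ℕ → ℝ} (hα : ∀ i, 0 ≤ α i) {t R : ℝ} (B : Finset ℕ)
    (hB : ∀ i ∈ B, t ≤ α i ∧ ∑ j ∈ Finset.range i, α j < R) (hne : B.Nonempty) :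
    ((B.card : ℝ) - 1) * t < R := by
  have hm := B.max'_mem hne
  obtain ⟨m, hmd⟩ : ∃ m, m = B.max' hne := ⟨_, rfl⟩
  rw [← hmd] at hm
  have hsub : B.erase m ⊆ Finset.range m := by
    intro i hi
    rw [Finset.mem_erase] at hi
    rw [Finset.mem_range]
    have h1 := B.le_max' i hi.2
    rw [← hmd] at h1
    omega
  have h1 : ∑ i ∈ B.erase m, α i ≤ ∑ i ∈ Finset.range m, α i :=
    Finset.sum_le_sum_of_subset_of_nonneg hsub fun i _ _ => hα i
  have h2 : ∑ i ∈ B.erase m, t ≤ ∑ i ∈ B.erase m, α i :=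
    Finset.sum_le_sum fun i hi => (hB i (Finset.mem_of_mem_erase hi)).1
  rw [Finset.sum_const, nsmul_eq_mul] at h2
  have h3 : ((B.erase m).card : ℝ) = B.card - 1 := by
    have h4 := Finset.card_erase_add_one hm
    have h5 : ((B.erase m).card : ℝ) + 1 = B.card := by exact_mod_cast h4
    linarith
  rw [h3] at h2
  linarith [(hB m hm).2]

theorem count_bad {α β : ℕ → ℝ} (hα : ∀ i, 0 ≤ α i) (hβ : ∀ i, 0 ≤ β i) {t0 b R e : ℝ}
    (ht0 : 0 < t0) (hb : 0 < b) (hR : 0 < R) (he : 0 < e) (n : ℕ) (c : ℕ → ℕ)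
    (hc : ∀ i < n, ∀ j < n, c i = c j → i = j) (G : Finset ℕ) (hG : G ⊆ Finset.range n)
    (hbad : ∀ j ∈ G, Bad t0 b R e α β (c j)) :
    (G.card : ℝ) ≤ (R / t0 + 1) * (1 / e + 1) ∧ (R ≤ t0 → R ≤ b → (G.card : ℝ) ≤ 1) := by
  classical
  have hex : ∀ j : ℕ, ∃ l, j ∈ G → (∑ i ∈ Finset.range l, α i +
      ∑ i ∈ Finset.range (l - c j), β i < R ∧ e * R < Lam t0 b α β (c j) (l + 1)) := by
    intro j
    by_cases hj : j ∈ G
    · obtain ⟨l, hl⟩ := hbad j hj
      exact ⟨l, fun _ => hl⟩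
    · exact ⟨0, fun h => absurd h hj⟩
  choose lv hlv using hex
  obtain ⟨N, hN⟩ : ∃ N : ℕ, N = G.sup lv + 1 := ⟨_, rfl⟩
  have hlN : ∀ j ∈ G, lv j < N := fun j hj => by
    rw [hN]
    exact Nat.lt_succ_of_le (Finset.le_sup (f := lv) hj)
  obtain ⟨B, hB⟩ : ∃ B : Finset ℕ, B = (Finset.range N).filter
    (fun i => t0 ≤ α i ∧ ∑ j ∈ Finset.range i, α j < R) := ⟨_, rfl⟩
  obtain ⟨A, hA⟩ : ∃ A : Finset ℕ, A = (Finset.range N).filter
    (fun i => b ≤ β i ∧ ∑ j ∈ Finset.range i, β j < R) := ⟨_, rfl⟩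
  have memB : ∀ i, i ∈ B ↔ i < N ∧ (t0 ≤ α i ∧ ∑ j ∈ Finset.range i, α j < R) := fun i => by
    rw [hB, Finset.mem_filter, Finset.mem_range]
  have memA : ∀ i, i ∈ A ↔ i < N ∧ (b ≤ β i ∧ ∑ j ∈ Finset.range i, β j < R) := fun i => by
    rw [hA, Finset.mem_filter, Finset.mem_range]
  obtain ⟨S, hS⟩ : ∃ S : ℕ → Finset ℕ, S = fun j => (Finset.range (lv j + 1)).filter
    (fun i => t0 ≤ α i ∧ b ≤ shf β (c j) i) := ⟨_, rfl⟩
  have memS : ∀ j i, i ∈ S j ↔ i < lv j + 1 ∧ (t0 ≤ α i ∧ b ≤ shf β (c j) i) := fun j i => by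
    rw [hS, Finset.mem_filter, Finset.mem_range]
  have hle : ∀ j i, i ∈ S j → c j ≤ i ∧ shf β (c j) i = β (i - c j) := by
    intro j i hi
    have h1 := ((memS j i).1 hi).2.2
    unfold shf at h1 ⊢
    by_cases h : c j ≤ i
    · exact ⟨h, if_pos h⟩
    · rw [if_neg h] at h1
      linarith
  obtain ⟨w, hw⟩ : ∃ w : ℕ → ℝ, w = fun i => min (β i / (e * R)) 1 := ⟨_, rfl⟩
  have heR : 0 < e * R := mul_pos he hR
  have hw0 : ∀ i, 0 ≤ w i := fun i => by
    rw [hw]
    exact le_min (div_nonneg (hβ i) heR.le) zero_le_one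
  -- every bad shift has weight at least one
  have hone : ∀ j ∈ G, 1 ≤ ∑ i ∈ S j, w (i - c j) := by
    intro j hj
    have h1 := (hlv j hj).2
    have h2 : Lam t0 b α β (c j) (lv j + 1) = ∑ i ∈ S j, β (i - c j) := by
      unfold Lam
      rw [← Finset.sum_filter]
      have h3 : (Finset.range (lv j + 1)).filter (fun i => t0 ≤ α i ∧ b ≤ shf β (c j) i) = S j := by
        rw [hS]
      rw [h3]
      exact Finset.sum_congr rfl fun i hi => (hle j i hi).2
    rw [h2] at h1
    by_cases hex : ∃ i ∈ S j, e * R ≤ β (i - c j)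
    · obtain ⟨i, hi, hi2⟩ := hex
      have h3 : w (i - c j) = 1 := by
        rw [hw]
        exact min_eq_right ((le_div_iff₀ heR).2 (by rw [one_mul]; exact hi2))
      rw [← h3]
      exact Finset.single_le_sum (f := fun i => w (i - c j)) (fun i _ => hw0 _) hi
    · push Not at hex
      have h3 : ∑ i ∈ S j, w (i - c j) = ∑ i ∈ S j, β (i - c j) / (e * R) := by
        refine Finset.sum_congr rfl fun i hi => ?_
        rw [hw]
        exact min_eq_left ((div_le_one heR).2 (hex i hi).le)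
      rw [h3, ← Finset.sum_div, le_div_iff₀ heR, one_mul]
      exact h1.le
  -- each pair of levels has only one shift
  have hpairs : ∑ j ∈ G, ∑ i ∈ S j, w (i - c j) ≤ ∑ q ∈ B ×ˢ A, w q.2 := by
    rw [Finset.sum_sigma']
    obtain ⟨g, hg⟩ : ∃ g : (_ : ℕ) × ℕ → ℕ × ℕ, g = fun q => (q.2, q.2 - c q.1) := ⟨_, rfl⟩
    have hinj : Set.InjOn g (G.sigma S : Finset ((_ : ℕ) × ℕ)) := by
      rintro ⟨j, i⟩ hq ⟨j', i'⟩ hq' h
      rw [Finset.mem_coe, Finset.mem_sigma] at hq hq'
      rw [hg] at h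
      simp only [Prod.mk.injEq] at h
      obtain ⟨h1, h2⟩ := h
      subst h1
      have h3 := (hle j i hq.2).1
      have h4 := (hle j' i hq'.2).1
      have h5 : j = j' := hc j (Finset.mem_range.1 (hG hq.1)) j' (Finset.mem_range.1 (hG hq'.1))
        (by omega)
      subst h5
      rfl
    have h1 : ∑ x ∈ G.sigma S, w (x.2 - c x.1) = ∑ q ∈ (G.sigma S).image g, w q.2 := by
      rw [Finset.sum_image hinj, hg]
    rw [h1]
    refine Finset.sum_le_sum_of_subset_of_nonneg ?_ fun q _ _ => hw0 _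
    intro q hq
    obtain ⟨⟨j, i⟩, hji, rfl⟩ := Finset.mem_image.1 hq
    rw [Finset.mem_sigma] at hji
    have h2 := (memS j i).1 hji.2
    have h3 := hle j i hji.2
    rw [h3.2] at h2
    have h4 := (hlv j hji.1).1
    have h5 := hlN j hji.1
    have h6 : ∑ k ∈ Finset.range i, α k ≤ ∑ k ∈ Finset.range (lv j), α k :=
      Finset.sum_le_sum_of_subset_of_nonneg (Finset.range_subset_range.2 (by omega))
        fun k _ _ => hα k
    have h7 : ∑ k ∈ Finset.range (i - c j), β k ≤ ∑ k ∈ Finset.range (lv j - c j), β k :=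
      Finset.sum_le_sum_of_subset_of_nonneg (Finset.range_subset_range.2 (by omega))
        fun k _ _ => hβ k
    have h8 : 0 ≤ ∑ k ∈ Finset.range (lv j), α k := Finset.sum_nonneg fun k _ => hα k
    have h9 : 0 ≤ ∑ k ∈ Finset.range (lv j - c j), β k := Finset.sum_nonneg fun k _ => hβ k
    rw [hg, Finset.mem_product, memB, memA]
    refine ⟨⟨?_, h2.2.1, ?_⟩, ?_, h2.2.2, ?_⟩
    · show i < N
      omega
    · show ∑ k ∈ Finset.range i, α k < R
      linarith
    · show i - c j < N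
      omega
    · show ∑ k ∈ Finset.range (i - c j), β k < R
      linarith
  have hcardG : (G.card : ℝ) ≤ ∑ q ∈ B ×ˢ A, w q.2 := by
    refine le_trans ?_ hpairs
    calc (G.card : ℝ) = ∑ _j ∈ G, (1 : ℝ) := by rw [Finset.sum_const, nsmul_eq_mul, mul_one]
      _ ≤ _ := Finset.sum_le_sum hone
  have hprod : ∑ q ∈ B ×ˢ A, w q.2 = B.card * ∑ i ∈ A, w i := by
    rw [Finset.sum_product]
    simp only [Finset.sum_const, nsmul_eq_mul]
  rw [hprod] at hcardG
  have hBc : (B.card : ℝ) ≤ R / t0 + 1 := by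
    rcases B.eq_empty_or_nonempty with h | h
    · rw [h, Finset.card_empty, Nat.cast_zero]
      positivity
    · have h1 := card_big hα B (fun i hi => ((memB i).1 hi).2) h
      have h2 : (B.card : ℝ) - 1 ≤ R / t0 := by
        rw [le_div_iff₀ ht0]
        exact h1.le
      linarith
  have hAw : ∑ i ∈ A, w i ≤ 1 / e + 1 := by
    rcases A.eq_empty_or_nonempty with h | h
    · rw [h, Finset.sum_empty]
      positivity
    · have hm := A.max'_mem h
      obtain ⟨m, hmd⟩ : ∃ m, m = A.max' h := ⟨_, rfl⟩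
      rw [← hmd] at hm
      have hsub : A.erase m ⊆ Finset.range m := by
        intro i hi
        rw [Finset.mem_erase] at hi
        rw [Finset.mem_range]
        have h1 := A.le_max' i hi.2
        rw [← hmd] at h1
        omega
      rw [← Finset.add_sum_erase A w hm]
      have h1 : w m ≤ 1 := by
        rw [hw]
        exact min_le_right _ _
      have h2 : ∑ i ∈ A.erase m, w i ≤ ∑ i ∈ Finset.range m, β i / (e * R) := by
        refine (Finset.sum_le_sum fun i _ => ?_).trans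
          (Finset.sum_le_sum_of_subset_of_nonneg hsub fun i _ _ => div_nonneg (hβ i) heR.le)
        rw [hw]
        exact min_le_left _ _
      rw [← Finset.sum_div] at h2
      have h3 : (∑ i ∈ Finset.range m, β i) / (e * R) ≤ 1 / e := by
        rw [div_le_div_iff₀ heR he]
        have h4 := ((memA m).1 hm).2.2
        nlinarith
      linarith
  refine ⟨hcardG.trans (mul_le_mul hBc hAw (Finset.sum_nonneg fun i _ => hw0 i)
    (by positivity)), fun hRt hRb => ?_⟩
  have hB1 : (B.card : ℝ) ≤ 1 := by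
    rcases B.eq_empty_or_nonempty with h | h
    · rw [h, Finset.card_empty, Nat.cast_zero]
      exact zero_le_one
    · have h1 := card_big hα B (fun i hi => ((memB i).1 hi).2) h
      have h2 : (B.card : ℝ) < 2 := by nlinarith
      have h3 : B.card < 2 := by exact_mod_cast h2
      exact_mod_cast Nat.lt_succ_iff.1 h3
  have hA1 : (A.card : ℝ) ≤ 1 := by
    rcases A.eq_empty_or_nonempty with h | h
    · rw [h, Finset.card_empty, Nat.cast_zero]
      exact zero_le_one
    · have h1 := card_big hβ A (fun i hi => ((memA i).1 hi).2) h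
      have h2 : (A.card : ℝ) < 2 := by nlinarith
      have h3 : A.card < 2 := by exact_mod_cast h2
      exact_mod_cast Nat.lt_succ_iff.1 h3
  have hAw1 : ∑ i ∈ A, w i ≤ 1 := by
    calc ∑ i ∈ A, w i ≤ ∑ _i ∈ A, (1 : ℝ) := Finset.sum_le_sum fun i _ => by
          rw [hw]
          exact min_le_right _ _
      _ = A.card := by rw [Finset.sum_const, nsmul_eq_mul, mul_one]
      _ ≤ 1 := hA1
  have h1 : 0 ≤ ∑ i ∈ A, w i := Finset.sum_nonneg fun i _ => hw0 i
  have h2 : (B.card : ℝ) * ∑ i ∈ A, w i ≤ 1 * 1 := mul_le_mul hB1 hAw1 h1 zero_le_one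
  linarith

end Pool.Agent.Helper62.GLP
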