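import Pool.Agent.Helper15.GL.Node

set_option autoImplicit false

/-!
# Project GL+ (MP_120218, helper62): the code for one pair of digits

`a` has law `f` and is random, `b` is a fixed value of a variable of law `g`, and `a + b` is
known. The pair is described at an average cost of at most `η (H(f) + β)`, `β = -log g(b)`, unless
`H(f) ≥ t0` and `β ≥ η t0`.
-/

namespace Pool.Agent.Helper62.GLP

open Finset Pool.Agent.Helper15.GL

/-- `W` is a code for `(a, b)` given `a + b`, good for the laws `f` and `g` -/
structure IsCode {G : Type} [Fintype G] [AddCommGroup G] (η t0 : ℝ) (f g : G → ℝ)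
    (W : G → G → ℝ) : Prop where
  nonneg : ∀ a b, 0 ≤ W a b
  pos : ∀ a b, 0 < f a → 0 < g b → 0 < W a b
  kraft : ∀ s, ∑ a, W a (s - a) ≤ 1
  cost : ∀ b, 0 < g b → ∑ a, f a * (-Real.log (W a b)) ≤ η * (ent f + -Real.log (g b)) +
    if t0 ≤ ent f ∧ η * t0 ≤ -Real.log (g b) then -Real.log (g b) else 0

private theorem mode_ex {α : Type} [Fintype α] (f : α → ℝ) (hf1 : ∑ a, f a = 1) :
    ∃ a0, ∀ a, f a ≤ f a0 := by
  classical
  have hne : (univ : Finset α).Nonempty := by
    rw [Finset.nonempty_iff_ne_empty]
    intro h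
    rw [h, Finset.sum_empty] at hf1
    exact zero_ne_one hf1
  obtain ⟨a0, -, h⟩ := Finset.exists_max_image univ f hne
  exact ⟨a0, fun a => h a (Finset.mem_univ a)⟩

private theorem neglog_le {ρ : ℝ} (h0 : 0 ≤ ρ) (h1 : ρ ≤ 1 / 2) : -Real.log (1 - ρ) ≤ 2 * ρ := by
  have h2 := Real.one_sub_inv_le_log_of_pos (show (0 : ℝ) < 1 - ρ by linarith)
  have h3 : (1 - ρ)⁻¹ ≤ 1 + 2 * ρ := by
    rw [inv_le_comm₀ (by linarith) (by linarith), inv_eq_one_div, div_le_iff₀ (by linarith)]
    nlinarith
  linarith

private theorem mul_neglog_le {τ t0 : ℝ} (h0 : 0 < τ) (h1 : τ ≤ t0) :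
    τ * (-Real.log τ) ≤ 2 * Real.sqrt t0 := by
  have hs : 0 < Real.sqrt τ := Real.sqrt_pos.2 h0
  have h2 := Real.one_sub_inv_le_log_of_pos hs
  have h3 : Real.log τ = 2 * Real.log (Real.sqrt τ) := by
    rw [Real.log_sqrt h0.le]
    ring
  have h4 : τ * (Real.sqrt τ)⁻¹ = Real.sqrt τ := by
    nth_rewrite 1 [← Real.mul_self_sqrt h0.le]
    field_simp
  have h5 : Real.sqrt τ ≤ Real.sqrt t0 := Real.sqrt_le_sqrt h1
  rw [h3]
  nlinarith

/-- the constants -/
private theorem consts (η : ℝ) (hη : 0 < η) (hη1 : η ≤ 1) : ∃ t0 : ℝ, 0 < t0 ∧ t0 ≤ 1 / 2 ∧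
    t0 ≤ η / 16 ∧ Real.log (16 / η) ≤ η / 4 * (-Real.log t0) ∧
    t0 * Real.log (16 / η) ≤ η / 16 ∧ 2 * Real.sqrt t0 ≤ η / 16 := by
  have hl : 0 ≤ Real.log (16 / η) := Real.log_nonneg (by rw [le_div_iff₀ hη]; linarith)
  refine ⟨min (min (Real.exp (-(4 / η * Real.log (16 / η)))) ((η / 32) ^ 2))
    (η / (16 * (1 + Real.log (16 / η)))), ?_, ?_, ?_, ?_, ?_, ?_⟩
  · exact lt_min (lt_min (Real.exp_pos _) (by positivity)) (by positivity)
  · refine (min_le_left _ _).trans ((min_le_right _ _).trans ?_)
    nlinarith
  · refine (min_le_right _ _).trans ?_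
    exact div_le_div_of_nonneg_left hη.le (by norm_num) (by linarith)
  · obtain ⟨t0, ht⟩ : ∃ t0, t0 = min (min (Real.exp (-(4 / η * Real.log (16 / η)))) ((η / 32) ^ 2))
      (η / (16 * (1 + Real.log (16 / η)))) := ⟨_, rfl⟩
    have hpos : 0 < t0 := by
      rw [ht]
      exact lt_min (lt_min (Real.exp_pos _) (by positivity)) (by positivity)
    have h1 : Real.log t0 ≤ -(4 / η * Real.log (16 / η)) := by
      rw [Real.log_le_iff_le_exp hpos, ht]
      exact (min_le_left _ _).trans (min_le_left _ _)
    rw [← ht]
    have h2 : η / 4 * (4 / η * Real.log (16 / η)) = Real.log (16 / η) := by field_simp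
    have h3 := mul_le_mul_of_nonneg_left (show 4 / η * Real.log (16 / η) ≤ -Real.log t0 by linarith)
      (show 0 ≤ η / 4 by positivity)
    linarith
  · have h1 := mul_le_mul_of_nonneg_right (min_le_right
      (min (Real.exp (-(4 / η * Real.log (16 / η)))) ((η / 32) ^ 2))
      (η / (16 * (1 + Real.log (16 / η))))) hl
    refine h1.trans ?_
    rw [div_mul_eq_mul_div, div_le_div_iff₀ (by positivity) (by norm_num)]
    nlinarith
  · have h1 : Real.sqrt (min (min (Real.exp (-(4 / η * Real.log (16 / η)))) ((η / 32) ^ 2))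
      (η / (16 * (1 + Real.log (16 / η))))) ≤ Real.sqrt ((η / 32) ^ 2) :=
      Real.sqrt_le_sqrt ((min_le_left _ _).trans (min_le_right _ _))
    rw [Real.sqrt_sq (by positivity)] at h1
    linarith

/-- **The code for one pair of digits.** -/
theorem node_code (η : ℝ) (hη : 0 < η) (hη1 : η ≤ 1) : ∃ t0 : ℝ, 0 < t0 ∧ t0 ≤ 1 / 2 ∧
    ∀ (G : Type) [Fintype G] [AddCommGroup G] (f g : G → ℝ),
      (∀ a, 0 ≤ f a) → (∀ a, 0 ≤ g a) → ∑ a, f a = 1 → ∑ a, g a = 1 →
      ∃ W : G → G → ℝ, IsCode η t0 f g W := by
  classical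
  obtain ⟨t0, ht0, hth, hc2, hc1, hc3, hc4⟩ := consts η hη hη1
  refine ⟨t0, ht0, hth, ?_⟩
  intro G _ _ f g hf hg hf1 hg1
  have hef := ent_nonneg f hf hf1
  have hle1 : ∀ b, g b ≤ 1 := fun b => by
    rw [← hg1]
    exact Finset.single_le_sum (f := g) (fun b _ => hg b) (Finset.mem_univ b)
  have hβ0 : ∀ b, 0 ≤ -Real.log (g b) := fun b => by
    have := Real.log_nonpos (hg b) (hle1 b)
    linarith
  have hextra : ∀ b, 0 ≤ (if t0 ≤ ent f ∧ η * t0 ≤ -Real.log (g b) then -Real.log (g b) else 0) := by
    intro b
    split_ifs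
    · exact hβ0 b
    · exact le_rfl
  rcases le_or_gt t0 (ent f) with hbig | hsmall
  · refine ⟨fun _ b => g b, fun _ b => hg b, fun _ b _ hb => hb, fun s => ?_, fun b hb => ?_⟩
    · rw [← hg1, ← Equiv.sum_comp (Equiv.subLeft s) g]
      exact le_of_eq rfl
    · rw [← Finset.sum_mul, hf1, one_mul]
      by_cases h : η * t0 ≤ -Real.log (g b)
      · rw [if_pos ⟨hbig, h⟩]
        have := mul_nonneg hη.le (add_nonneg hef (hβ0 b))
        linarith
      · rw [if_neg fun h' => h h'.2, add_zero, mul_add]
        have h1 := mul_le_mul_of_nonneg_left hbig hη.le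
        have h2 := mul_nonneg hη.le (hβ0 b)
        linarith [not_le.1 h]
  · obtain ⟨a0, ha0⟩ := mode_ex f hf1
    obtain ⟨b0, hb0⟩ := mode_ex g hg1
    obtain ⟨hfa, hfa1, hfo, hf3, hf4⟩ := mode_facts f hf hf1 a0 ha0
    obtain ⟨hgb, hgb1, hgo, -, -⟩ := mode_facts g hg hg1 b0 hb0
    obtain ⟨τ, hτ⟩ : ∃ τ : ℝ, τ = 1 - f a0 := ⟨_, rfl⟩
    rw [← hτ] at hf3 hf4 hfo
    have hτ0 : 0 ≤ τ := by rw [hτ]; linarith
    have hτt : τ < t0 := lt_of_le_of_lt hf3 hsmall
    have hsumo : ∑ a ∈ univ.erase a0, f a = τ := by
      have := Finset.add_sum_erase univ f (Finset.mem_univ a0)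
      rw [hτ]
      linarith
    obtain ⟨θ, hθ⟩ : ∃ θ : ℝ, θ = η / 16 := ⟨_, rfl⟩
    have hθ0 : 0 < θ := by rw [hθ]; positivity
    have hθ2 : θ ≤ 1 / 2 := by rw [hθ]; linarith
    have hlθ : -Real.log θ = Real.log (16 / η) := by
      rw [hθ, ← Real.log_inv, inv_div]
    have hlθ0 : 0 ≤ -Real.log θ := by
      rw [hlθ]
      exact Real.log_nonneg (by rw [le_div_iff₀ hη]; linarith)
    obtain ⟨ρ, hρ⟩ : ∃ ρ : ℝ, ρ = η * τ / 8 := ⟨_, rfl⟩
    have hρ0 : 0 ≤ ρ := by rw [hρ]; positivity
    have hρ2 : ρ ≤ 1 / 2 := by
      rw [hρ]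
      have : η * τ ≤ 1 * (1 / 2) := mul_le_mul hη1 (by linarith) hτ0 (by norm_num)
      linarith
    obtain ⟨κ, hκ⟩ : ∃ κ : G → ℝ, κ = fun z => if z = a0 + b0 then ρ else θ := ⟨_, rfl⟩
    have hκ0 : ∀ z, 0 ≤ κ z := by
      intro z
      rw [hκ]
      simp only
      split_ifs
      · exact hρ0
      · exact hθ0.le
    have hκ1 : ∀ z, κ z ≤ 1 / 2 := by
      intro z
      rw [hκ]
      simp only
      split_ifs
      · exact hρ2
      · exact hθ2
    -- `f a > 0` for some `a ≠ a0` implies `τ > 0`
    have hτpos : ∀ a, a ≠ a0 → 0 < f a → 0 < τ := fun a ha h => lt_of_lt_of_le h (hfo a ha)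
    have hlτ0 : 0 ≤ -Real.log τ := by
      have := Real.log_nonpos hτ0 (by linarith)
      linarith
    have hlρ : ∀ a, a ≠ a0 → 0 < f a → -Real.log ρ = Real.log (8 / η) + -Real.log τ := by
      intro a ha h
      have := hτpos a ha h
      rw [hρ, show η * τ / 8 = (8 / η)⁻¹ * τ by field_simp, Real.log_mul (by positivity) this.ne',
        Real.log_inv]
      ring
    have hl8 : Real.log (8 / η) ≤ Real.log (16 / η) :=
      Real.log_le_log (by positivity) (by gcongr; norm_num)
    have hl80 : 0 ≤ Real.log (8 / η) := Real.log_nonneg (by rw [le_div_iff₀ hη]; linarith)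
    have hκpos : ∀ a, a ≠ a0 → 0 < f a → ∀ z, 0 < κ z := by
      intro a ha h z
      have := hτpos a ha h
      rw [hκ]
      simp only
      split_ifs
      · rw [hρ]; positivity
      · exact hθ0
    refine ⟨fun a b => if a = a0 then 1 - κ (a + b) else κ (a + b) * g b, ?_, ?_, ?_, ?_⟩
    · intro a b
      split_ifs
      · have := hκ1 (a + b)
        linarith
      · exact mul_nonneg (hκ0 _) (hg b)
    · intro a b ha hb
      split_ifs with h
      · have := hκ1 (a + b)
        linarith
      · exact mul_pos (hκpos a h ha _) hb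
    · intro s
      have h1 : ∀ a ∈ univ.erase a0, (if a = a0 then 1 - κ (a + (s - a)) else
          κ (a + (s - a)) * g (s - a)) = κ s * g (s - a) := by
        intro a ha
        rw [if_neg (Finset.ne_of_mem_erase ha), add_sub_cancel]
      rw [← Finset.add_sum_erase univ _ (Finset.mem_univ a0), Finset.sum_congr rfl h1, if_pos rfl,
        add_sub_cancel, ← Finset.mul_sum]
      have h2 : ∑ a ∈ univ.erase a0, g (s - a) ≤ 1 := by
        calc ∑ a ∈ univ.erase a0, g (s - a) ≤ ∑ a, g (s - a) :=
              Finset.sum_le_sum_of_subset_of_nonneg (Finset.erase_subset _ _)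
                fun a _ _ => hg _
          _ = ∑ b, g b := Equiv.sum_comp (Equiv.subLeft s) g
          _ = 1 := hg1
      have h3 := mul_le_mul_of_nonneg_left h2 (hκ0 s)
      linarith
    · intro b hb
      refine le_trans ?_ (le_add_of_nonneg_right (hextra b))
      obtain ⟨β, hβ⟩ : ∃ β : ℝ, β = -Real.log (g b) := ⟨_, rfl⟩
      have hβb := hβ0 b
      rw [← hβ] at hβb ⊢
      rw [← Finset.add_sum_erase univ _ (Finset.mem_univ a0), if_pos rfl]
      by_cases hbb : b = b0
      · -- `b` is the mode
        have e1 : κ (a0 + b) = ρ := by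
          rw [hκ, hbb]
          simp only [if_true]
        have e2 : ∀ a ∈ univ.erase a0, f a * (-Real.log (if a = a0 then 1 - κ (a + b) else
            κ (a + b) * g b)) = f a * (-Real.log θ + β) := by
          intro a ha
          have ha' := Finset.ne_of_mem_erase ha
          have e3 : κ (a + b) = θ := by
            rw [hκ, hbb]
            simp only
            rw [if_neg (by simpa using ha')]
          rw [if_neg ha', e3, Real.log_mul hθ0.ne' hb.ne', hβ]
          ring
        rw [e1, Finset.sum_congr rfl e2, ← Finset.sum_mul, hsumo]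
        have h1 := neglog_le hρ0 hρ2
        have h2 : f a0 * (-Real.log (1 - ρ)) ≤ 2 * ρ := by
          have h3 : 0 ≤ -Real.log (1 - ρ) := by
            have := Real.log_nonpos (show (0 : ℝ) ≤ 1 - ρ by linarith) (by linarith)
            linarith
          calc f a0 * (-Real.log (1 - ρ)) ≤ 1 * (-Real.log (1 - ρ)) :=
                mul_le_mul_of_nonneg_right hfa1 h3
            _ ≤ 2 * ρ := by linarith
        have h3 : 2 * ρ ≤ η / 4 * ent f := by
          rw [hρ]
          have := mul_le_mul_of_nonneg_left hf3 hη.le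
          linarith
        have h4 : τ * (-Real.log θ) ≤ η / 4 * ent f := by
          rcases eq_or_lt_of_le hτ0 with h | h
          · rw [← h, zero_mul]
            exact mul_nonneg (by positivity) hef
          · have h5 : -Real.log t0 ≤ -Real.log τ := neg_le_neg (Real.log_le_log h hτt.le)
            have h6 : -Real.log θ ≤ η / 4 * (-Real.log τ) := by
              rw [hlθ]
              exact hc1.trans (mul_le_mul_of_nonneg_left h5 (by positivity))
            calc τ * (-Real.log θ) ≤ τ * (η / 4 * (-Real.log τ)) :=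
                  mul_le_mul_of_nonneg_left h6 hτ0
              _ = η / 4 * (τ * (-Real.log τ)) := by ring
              _ ≤ η / 4 * ent f := mul_le_mul_of_nonneg_left hf4 (by positivity)
        have h5 : τ * β ≤ η / 8 * β := mul_le_mul_of_nonneg_right (by linarith) hβb
        have h6 := mul_nonneg hη.le hef
        have h7 := mul_nonneg hη.le hβb
        rw [mul_add, mul_add]
        linarith
      · -- `b` is not the mode
        have hβ2 : 1 / 2 ≤ β := by
          have h1 : g b ≤ 1 / 2 := by
            have h2 := hgo b hbb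
            have h3 := hb0 b
            linarith
          have h2 : Real.log (g b) ≤ Real.log (1 / 2) := Real.log_le_log hb h1
          have h3 : Real.log (1 / 2 : ℝ) = -Real.log 2 := by
            rw [one_div, Real.log_inv]
          have h4 := Real.log_two_gt_d9
          rw [hβ]
          linarith
        have e1 : κ (a0 + b) = θ := by
          rw [hκ]
          simp only
          rw [if_neg (by simpa using hbb)]
        obtain ⟨a1, ha1⟩ : ∃ a1 : G, a1 = a0 + b0 - b := ⟨_, rfl⟩
        have e2 : ∀ a ∈ univ.erase a0, f a * (-Real.log (if a = a0 then 1 - κ (a + b) else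
            κ (a + b) * g b)) ≤ f a * (-Real.log θ + β) +
              (if a = a1 then τ * Real.log (8 / η) + τ * (-Real.log τ) else 0) := by
          intro a ha
          have ha' := Finset.ne_of_mem_erase ha
          rw [if_neg ha']
          rcases eq_or_lt_of_le (hf a) with h | h
          · rw [← h, zero_mul, zero_mul, zero_add]
            split_ifs
            · exact add_nonneg (mul_nonneg hτ0 hl80) (mul_nonneg hτ0 hlτ0)
            · exact le_rfl
          · have h8 : Real.log (κ (a + b) * g b) = Real.log (κ (a + b)) - β := by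
              rw [Real.log_mul (hκpos a ha' h _).ne' hb.ne', hβ]
              ring
            rw [h8]
            by_cases haa : a = a1
            · have h1 : κ (a + b) = ρ := by
                rw [hκ]
                simp only
                rw [if_pos (by rw [haa, ha1, sub_add_cancel])]
              rw [if_pos haa, h1]
              have h2 := hlρ a ha' h
              have h3 : f a * (-Real.log ρ) ≤ τ * (-Real.log ρ) :=
                mul_le_mul_of_nonneg_right (hfo a ha') (by rw [h2]; linarith)
              have h4 : 0 ≤ f a * (-Real.log θ) := mul_nonneg h.le hlθ0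
              rw [h2] at h3
              nlinarith
            · have h1 : κ (a + b) = θ := by
                rw [hκ]
                simp only
                rw [if_neg]
                intro h2
                exact haa (by rw [ha1, ← h2, add_sub_cancel_right])
              rw [if_neg haa, h1, add_zero]
              exact le_of_eq (by ring)
        have h1 := Finset.sum_le_sum e2
        rw [Finset.sum_add_distrib, ← Finset.sum_mul, hsumo] at h1
        have h2 : ∑ a ∈ univ.erase a0, (if a = a1 then τ * Real.log (8 / η) +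
            τ * (-Real.log τ) else 0) ≤ τ * Real.log (8 / η) + τ * (-Real.log τ) := by
          have hnn : 0 ≤ τ * Real.log (8 / η) + τ * (-Real.log τ) :=
            add_nonneg (mul_nonneg hτ0 hl80) (mul_nonneg hτ0 hlτ0)
          calc ∑ a ∈ univ.erase a0, (if a = a1 then τ * Real.log (8 / η) +
                τ * (-Real.log τ) else 0) ≤ ∑ a, (if a = a1 then τ * Real.log (8 / η) +
                τ * (-Real.log τ) else 0) :=
                Finset.sum_le_sum_of_subset_of_nonneg (Finset.erase_subset _ _)
                  fun a _ _ => by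
                    split_ifs
                    · exact hnn
                    · exact le_rfl
            _ = τ * Real.log (8 / η) + τ * (-Real.log τ) := by
              rw [Finset.sum_ite_eq' univ a1]
              simp
        rw [e1]
        have h3 : f a0 * (-Real.log (1 - θ)) ≤ η / 8 := by
          have h4 := neglog_le hθ0.le hθ2
          have h5 : 0 ≤ -Real.log (1 - θ) := by
            have := Real.log_nonpos (show (0 : ℝ) ≤ 1 - θ by linarith) (by linarith)
            linarith
          calc f a0 * (-Real.log (1 - θ)) ≤ 1 * (-Real.log (1 - θ)) :=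
                mul_le_mul_of_nonneg_right hfa1 h5
            _ ≤ 2 * θ := by linarith
            _ = η / 8 := by rw [hθ]; ring
        have h4 : τ * (-Real.log θ) ≤ η / 16 := by
          rw [hlθ]
          exact (mul_le_mul_of_nonneg_right hτt.le (by rw [← hlθ]; exact hlθ0)).trans hc3
        have h5 : τ * Real.log (8 / η) ≤ η / 16 := by
          calc τ * Real.log (8 / η) ≤ t0 * Real.log (16 / η) :=
                mul_le_mul hτt.le hl8 hl80 ht0.le
            _ ≤ η / 16 := hc3
        have h6 : τ * (-Real.log τ) ≤ η / 16 := by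
          rcases eq_or_lt_of_le hτ0 with h | h
          · rw [← h, zero_mul]
            positivity
          · exact (mul_neglog_le h hτt.le).trans hc4
        have h7 : τ * β ≤ η / 16 * β := mul_le_mul_of_nonneg_right (by linarith) hβb
        have h8 : η / 2 ≤ η * β := by
          have := mul_le_mul_of_nonneg_left hβ2 hη.le
          linarith
        have h9 := mul_nonneg hη.le hef
        rw [mul_add] at h1
        rw [mul_add]
        linarith

end Pool.Agent.Helper62.GLP
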