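import Pool.Agent.Helper15.GL.Level
import Pool.Agent.Helper62.GLP.Node

set_option autoImplicit false

/-!
# Project GL+ (MP_120218, helper62): sums over partitions, Kraft inequality with stopping
-/

namespace Pool.Agent.Helper62.GLP

open Finset Pool.Agent.Helper15.GL

/-- averaging over the parts of a partition -/
theorem part_avg (X : Finset ℤ) (C : ℤ → Finset ℤ) (h1 : ∀ x ∈ X, C x ⊆ X)
    (h2 : ∀ x ∈ X, x ∈ C x) (h3 : ∀ x ∈ X, ∀ y ∈ C x, C y = C x) (ψ : ℤ → ℝ) :
    ∑ x ∈ X, (∑ y ∈ C x, ψ y) / (C x).card = ∑ x ∈ X, ψ x := by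
  classical
  have hsym : ∀ x ∈ X, ∀ y ∈ X, (y ∈ C x ↔ x ∈ C y) := by
    intro x hx y hy
    constructor
    · intro h
      rw [h3 x hx y h]
      exact h2 x hx
    · intro h
      rw [h3 y hy x h]
      exact h2 y hy
  have e1 : ∀ x ∈ X, (∑ y ∈ C x, ψ y) / (C x).card =
      ∑ y ∈ X, if y ∈ C x then ψ y / (C y).card else 0 := by
    intro x hx
    rw [Finset.sum_div, ← Finset.sum_filter]
    have e2 : X.filter (fun y => y ∈ C x) = C x := by
      ext y
      rw [Finset.mem_filter]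
      exact ⟨fun h => h.2, fun h => ⟨h1 x hx h, h⟩⟩
    rw [e2]
    refine Finset.sum_congr rfl fun y hy => ?_
    rw [h3 x hx y hy]
  rw [Finset.sum_congr rfl e1, Finset.sum_comm]
  refine Finset.sum_congr rfl fun y hy => ?_
  have e2 : ∑ x ∈ X, (if y ∈ C x then ψ y / (C y).card else 0) =
      ∑ x ∈ C y, ψ y / (C y).card := by
    rw [← Finset.sum_filter]
    refine Finset.sum_congr ?_ fun _ _ => rfl
    ext x
    rw [Finset.mem_filter]
    constructor
    · rintro ⟨hx, h⟩
      exact (hsym x hx y hy).1 h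
    · intro h
      exact ⟨h1 y hy h, (hsym x (h1 y hy h) y hy).2 h⟩
  rw [e2, Finset.sum_const, nsmul_eq_mul]
  have h4 : ((C y).card : ℝ) ≠ 0 := by
    have := Finset.card_pos.2 ⟨y, h2 y hy⟩
    positivity
  field_simp

/-- comparison of two sums, part by part -/
theorem part_sum (X : Finset ℤ) (C : ℤ → Finset ℤ) (h1 : ∀ x ∈ X, C x ⊆ X)
    (h2 : ∀ x ∈ X, x ∈ C x) (h3 : ∀ x ∈ X, ∀ y ∈ C x, C y = C x) (F G : ℤ → ℝ)
    (h : ∀ x ∈ X, ∑ y ∈ C x, F y ≤ (C x).card * G x) : ∑ x ∈ X, F x ≤ ∑ x ∈ X, G x := by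
  rw [← part_avg X C h1 h2 h3 F]
  refine Finset.sum_le_sum fun x hx => ?_
  have h4 : (0 : ℝ) < (C x).card := by exact_mod_cast Finset.card_pos.2 ⟨x, h2 x hx⟩
  rw [div_le_iff₀ h4, mul_comm]
  exact h x hx

/-- digits of a sum -/
theorem dig_add {p l : ℕ} (hp : 0 < p) {X Y : Finset ℤ} {x0 y0 a b : ℤ} (ha : a ∈ cls p l X x0)
    (hb : b ∈ cls p l Y y0) : dig p l (a + b) = dig p l a + dig p l b +
      (((x0 % (p : ℤ) ^ l + y0 % (p : ℤ) ^ l) / (p : ℤ) ^ l : ℤ) : ZMod p) := by
  obtain ⟨P, hP⟩ : ∃ P : ℤ, P = (p : ℤ) ^ l := ⟨_, rfl⟩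
  have hP0 : P ≠ 0 := by rw [hP]; positivity
  have hmod : ∀ {a b : ℤ}, P ∣ a - b → a % P = b % P := fun h =>
    Int.emod_eq_emod_iff_emod_sub_eq_zero.2 (Int.emod_eq_zero_of_dvd h)
  rw [mem_cls, ← hP] at ha hb
  have ha' := hmod ha.2
  have hb' := hmod hb.2
  have h1 : (a + b) / P = a / P + b / P + (x0 % P + y0 % P) / P := by
    have e1 := Int.mul_ediv_add_emod a P
    have e2 := Int.mul_ediv_add_emod b P
    have e3 : a + b = (x0 % P + y0 % P) + P * (a / P + b / P) := by
      rw [← ha', ← hb', mul_add]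
      linarith
    rw [e3, Int.add_mul_ediv_left _ _ hP0, add_comm]
  unfold dig
  rw [← hP, h1]
  push_cast
  ring

/-- `∑ F x y` over the pairs `(x, y) ∈ X × Y` with `x + y = s` -/
noncomputable def psum (X Y : Finset ℤ) (F : ℤ → ℤ → ℝ) (s : ℤ) : ℝ :=
  ∑ x ∈ X.filter (fun x => s - x ∈ Y), F x (s - x)

/-- **Kraft's inequality with stopping.** `L x y` is the level at which the pair `(x, y)` is
stopped, `W l x y` the code for the digits at the level `l` and `lf l` the code for the rest. -/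
theorem kraft_stop (p : ℕ) (hp : 0 < p) [NeZero p] (X Y : Finset ℤ) (L : ℤ → ℤ → ℕ)
    (hL : ∀ l, ∀ x ∈ X, ∀ y ∈ Y, l ≤ L x y → ∀ x' ∈ cls p l X x, ∀ y' ∈ cls p l Y y,
      l ≤ L x' y' ∧ (L x y = l → L x' y' = l))
    (W : ℕ → ℤ → ℤ → ZMod p → ZMod p → ℝ) (hW0 : ∀ l x y a b, 0 ≤ W l x y a b)
    (hW : ∀ l, ∀ x ∈ X, ∀ y ∈ Y, ∀ x' ∈ cls p l X x, ∀ y' ∈ cls p l Y y, W l x' y' = W l x y)
    (hK : ∀ l, ∀ x ∈ X, ∀ y ∈ Y, ∀ s, ∑ a, W l x y a (s - a) ≤ 1)
    (lf : ℕ → ℤ → ℤ → ℝ) (M : ℝ) (hM : 0 ≤ M)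
    (hlf : ∀ l, ∀ x ∈ X, ∀ y ∈ Y, ∀ s, psum (cls p l X x) (cls p l Y y) (lf l) s ≤ M) (s : ℤ) :
    psum X Y (fun x y => (∏ i ∈ Finset.range (L x y), W i x y (dig p i x) (dig p i y)) *
      lf (L x y) x y) s ≤ M := by
  classical
  have key : ∀ k l : ℕ, ∀ x0 ∈ X, ∀ y0 ∈ Y, l ≤ L x0 y0 →
      (∀ x ∈ cls p l X x0, ∀ y ∈ cls p l Y y0, L x y ≤ l + k) →
      psum (cls p l X x0) (cls p l Y y0) (fun x y =>
        (∏ i ∈ Finset.Ico l (L x y), W i x y (dig p i x) (dig p i y)) * lf (L x y) x y) s ≤ M := by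
    intro k
    -- the case where everything is stopped at the level `l`
    have hstop : ∀ l : ℕ, ∀ x0 ∈ X, ∀ y0 ∈ Y, L x0 y0 = l →
      psum (cls p l X x0) (cls p l Y y0) (fun x y =>
        (∏ i ∈ Finset.Ico l (L x y), W i x y (dig p i x) (dig p i y)) * lf (L x y) x y) s ≤ M := by
      intro l x0 hx0 y0 hy0 h0
      refine le_trans (le_of_eq ?_) (hlf l x0 hx0 y0 hy0 s)
      unfold psum
      refine Finset.sum_congr rfl fun x hx => ?_
      rw [Finset.mem_filter] at hx
      have h1 := (hL l x0 hx0 y0 hy0 h0.ge x hx.1 (s - x) hx.2).2 h0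
      simp only [h1, Finset.Ico_self, Finset.prod_empty, one_mul]
    induction k with
    | zero =>
      intro l x0 hx0 y0 hy0 h1 h2
      have h3 := h2 x0 (self_mem_cls hx0) y0 (self_mem_cls hy0)
      exact hstop l x0 hx0 y0 hy0 (by omega)
    | succ k ih =>
      intro l x0 hx0 y0 hy0 h1 h2
      rcases h1.eq_or_lt with h0 | hlt
      · exact hstop l x0 hx0 y0 hy0 h0.symm
      -- not stopped
      have hlt' : ∀ x ∈ cls p l X x0, ∀ y ∈ cls p l Y y0, l < L x y := by
        intro x hx y hy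
        have hxX := (mem_cls.1 hx).1
        have hyY := (mem_cls.1 hy).1
        have h3 := (hL l x0 hx0 y0 hy0 h1 x hx y hy).1
        rcases h3.eq_or_lt with h4 | h4
        · exfalso
          have hx' : x0 ∈ cls p l X x := by
            rw [mem_cls] at hx ⊢
            exact ⟨hx0, (dvd_sub_comm).1 hx.2⟩
          have hy' : y0 ∈ cls p l Y y := by
            rw [mem_cls] at hy ⊢
            exact ⟨hy0, (dvd_sub_comm).1 hy.2⟩
          have h5 := (hL l x hxX y hyY h3 x0 hx' y0 hy').2 h4.symm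
          omega
        · exact h4
      obtain ⟨σ, hσ⟩ : ∃ σ : ZMod p, σ = dig p l s -
        (((x0 % (p : ℤ) ^ l + y0 % (p : ℤ) ^ l) / (p : ℤ) ^ l : ℤ) : ZMod p) := ⟨_, rfl⟩
      have hdig : ∀ x ∈ cls p l X x0, s - x ∈ cls p l Y y0 → dig p l (s - x) = σ - dig p l x := by
        intro x hx hy
        have h3 := dig_add hp hx hy
        rw [add_sub_cancel] at h3
        rw [hσ, h3]
        ring
      obtain ⟨T, hT⟩ : ∃ T : Finset ℤ,
        T = (cls p l X x0).filter (fun x => s - x ∈ cls p l Y y0) := ⟨_, rfl⟩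
      have memT : ∀ x, x ∈ T ↔ x ∈ cls p l X x0 ∧ s - x ∈ cls p l Y y0 := by
        intro x
        rw [hT]
        exact Finset.mem_filter
      unfold psum
      rw [← hT, ← Finset.sum_fiberwise T (dig p l)]
      have hpart : ∀ a : ZMod p, ∑ x ∈ T.filter (fun x => dig p l x = a),
          (∏ i ∈ Finset.Ico l (L x (s - x)), W i x (s - x) (dig p i x) (dig p i (s - x))) *
            lf (L x (s - x)) x (s - x) ≤ W l x0 y0 a (σ - a) * M := by
        intro a
        have hterm : ∀ x ∈ T.filter (fun x => dig p l x = a),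
            (∏ i ∈ Finset.Ico l (L x (s - x)), W i x (s - x) (dig p i x) (dig p i (s - x))) *
              lf (L x (s - x)) x (s - x) = W l x0 y0 a (σ - a) *
            ((∏ i ∈ Finset.Ico (l + 1) (L x (s - x)),
              W i x (s - x) (dig p i x) (dig p i (s - x))) * lf (L x (s - x)) x (s - x)) := by
          intro x hx
          rw [Finset.mem_filter, memT] at hx
          rw [Finset.prod_eq_prod_Ico_succ_bot (hlt' x hx.1.1 _ hx.1.2),
            hW l x0 hx0 y0 hy0 x hx.1.1 _ hx.1.2, hdig x hx.1.1 hx.1.2, hx.2, mul_assoc]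
        rw [Finset.sum_congr rfl hterm, ← Finset.mul_sum]
        refine mul_le_mul_of_nonneg_left ?_ (hW0 _ _ _ _ _)
        rcases (T.filter (fun x => dig p l x = a)).eq_empty_or_nonempty with h0 | ⟨x1, hx1⟩
        · rw [h0, Finset.sum_empty]
          exact hM
        · rw [Finset.mem_filter, memT] at hx1
          have hx1X := (mem_cls.1 hx1.1.1).1
          have hy1Y := (mem_cls.1 hx1.1.2).1
          have e : T.filter (fun x => dig p l x = a) = (cls p (l + 1) X x1).filter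
              (fun x => s - x ∈ cls p (l + 1) Y (s - x1)) := by
            have f1 := filter_dig p l hp X x0 x1 hx1.1.1
            have f2 := filter_dig p l hp Y y0 (s - x1) hx1.1.2
            ext x
            rw [Finset.mem_filter, memT, Finset.mem_filter, ← f1, ← f2, Finset.mem_filter,
              Finset.mem_filter]
            constructor
            · rintro ⟨⟨h3, h4⟩, h5⟩
              refine ⟨⟨h3, h5.trans hx1.2.symm⟩, h4, ?_⟩
              rw [hdig x h3 h4, hdig x1 hx1.1.1 hx1.1.2, h5, hx1.2]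
            · rintro ⟨⟨h3, h4⟩, h5, -⟩
              exact ⟨⟨h3, h5⟩, h4.trans hx1.2⟩
          rw [e]
          have h3 := ih (l + 1) x1 hx1X (s - x1) hy1Y (hlt' x1 hx1.1.1 _ hx1.1.2)
            (by
              intro x hx y hy
              have h4 := h2 x (by
                have := cls_succ_subset p l X x1 hx
                rwa [cls_eq (mem_cls.1 hx1.1.1).2] at this) y (by
                have := cls_succ_subset p l Y (s - x1) hy
                rwa [cls_eq (mem_cls.1 hx1.1.2).2] at this)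
              omega)
          exact h3
      refine (Finset.sum_le_sum fun a _ => hpart a).trans ?_
      rw [← Finset.sum_mul]
      exact mul_le_of_le_one_left hM (hK l x0 hx0 y0 hy0 σ)
  -- conclusion
  unfold psum
  rcases (X.filter (fun x => s - x ∈ Y)).eq_empty_or_nonempty with h0 | ⟨x1, hx1⟩
  · rw [h0, Finset.sum_empty]
    exact hM
  · rw [Finset.mem_filter] at hx1
    have h1 := key ((X ×ˢ Y).sup fun q => L q.1 q.2) 0 x1 hx1.1 (s - x1) hx1.2 (Nat.zero_le _)
      (by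
        intro x hx y hy
        rw [cls_zero] at hx hy
        rw [zero_add]
        exact Finset.le_sup (f := fun q : ℤ × ℤ => L q.1 q.2)
          (Finset.mem_product.2 ⟨hx, hy⟩ : (x, y) ∈ X ×ˢ Y))
    unfold psum at h1
    rw [cls_zero, cls_zero] at h1
    refine le_trans (le_of_eq ?_) h1
    refine Finset.sum_congr rfl fun x _ => ?_
    simp only [Finset.range_eq_Ico]

end Pool.Agent.Helper62.GLP
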