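import Pool.Agent.Helper62.GLP.One

set_option autoImplicit false

/-!
# Project GL+ (MP_120218, helper62): all primes
-/

namespace Pool.Agent.Helper62.GLP

open Finset Pool.Agent.Helper15.GL

/-- the average over the box of a shape -/
noncomputable def Av : List (ℕ × ℕ) → (List ℕ → ℝ) → ℝ
  | [], F => F []
  | (_, n) :: s, F => (∑ i ∈ Finset.range n, Av s (fun t => F (i :: t))) / n

theorem Av_mono : ∀ (s : List (ℕ × ℕ)) (F G : List ℕ → ℝ), (∀ t, InBox s t → F t ≤ G t) →
    Av s F ≤ Av s G := by
  intro s
  induction s with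
  | nil =>
    intro F G h
    exact h [] List.Forall₂.nil
  | cons q s ih =>
    obtain ⟨p, n⟩ := q
    intro F G h
    simp only [Av]
    refine div_le_div_of_nonneg_right ?_ (Nat.cast_nonneg _)
    refine Finset.sum_le_sum fun i hi => ih _ _ fun t ht => ?_
    exact h (i :: t) (List.Forall₂.cons (Finset.mem_range.1 hi) ht)

theorem Av_add : ∀ (s : List (ℕ × ℕ)) (F G : List ℕ → ℝ),
    Av s (fun t => F t + G t) = Av s F + Av s G := by
  intro s
  induction s with
  | nil => intro F G; rfl
  | cons q s ih =>
    obtain ⟨p, n⟩ := q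
    intro F G
    simp only [Av]
    rw [← add_div, ← Finset.sum_add_distrib]
    congr 1
    exact Finset.sum_congr rfl fun i _ => ih _ _

theorem Av_sum (T : Finset ℤ) : ∀ (s : List (ℕ × ℕ)) (F : ℤ → List ℕ → ℝ),
    Av s (fun t => ∑ x ∈ T, F x t) = ∑ x ∈ T, Av s (F x) := by
  intro s
  induction s with
  | nil => intro F; rfl
  | cons q s ih =>
    obtain ⟨p, n⟩ := q
    intro F
    simp only [Av]
    rw [← Finset.sum_div, Finset.sum_comm]
    congr 1
    exact Finset.sum_congr rfl fun i _ => ih _

theorem Av_const : ∀ (s : List (ℕ × ℕ)) (_ : ∀ q ∈ s, q.2 ≠ 0) (r : ℝ),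
    Av s (fun _ => r) = r := by
  intro s
  induction s with
  | nil => intro _ r; rfl
  | cons q s ih =>
    obtain ⟨p, n⟩ := q
    intro h r
    have hn : (n : ℝ) ≠ 0 := by exact_mod_cast h (p, n) (List.mem_cons_self ..)
    simp only [Av]
    rw [Finset.sum_congr rfl fun i _ => ih (fun q hq => h q (List.mem_cons_of_mem _ hq)) r,
      Finset.sum_const, Finset.card_range, nsmul_eq_mul]
    field_simp

/-- the factor of one prime -/
noncomputable def th1 (K ε I : ℝ) (n : ℕ) : ℝ := max (2 / K) (Real.exp (-(ε * n / (4 * K * I))))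

/-- the factor of a shape -/
noncomputable def th (K ε I : ℝ) (s : List (ℕ × ℕ)) : ℝ := (s.map (fun q => th1 K ε I q.2)).prod

theorem th1_pos {K ε I : ℝ} (n : ℕ) : 0 < th1 K ε I n :=
  lt_of_lt_of_le (Real.exp_pos _) (le_max_right _ _)

theorem th_pos {K ε I : ℝ} (s : List (ℕ × ℕ)) : 0 < th K ε I s := by
  unfold th
  refine List.prod_pos fun a ha => ?_
  obtain ⟨q, _, rfl⟩ := List.mem_map.1 ha
  exact th1_pos _

theorem th_le {K ε I : ℝ} (hK : 2 ≤ K) (hε : 0 ≤ ε) (hI : 0 < I) (s : List (ℕ × ℕ)) :
    th K ε I s ≤ max (2 / K) (Real.exp (-(ε / (4 * K) * (s.map (fun q => (q.2 : ℝ))).sum / I))) := by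
  have hK0 : 0 < K := by linarith
  have hK1 : 2 / K ≤ 1 := by rw [div_le_one hK0]; exact hK
  induction s with
  | nil =>
    unfold th
    simp
  | cons q s ih =>
    have h1 : th K ε I (q :: s) = th1 K ε I q.2 * th K ε I s := by
      unfold th
      rw [List.map_cons, List.prod_cons]
    have h2 : Real.exp (-(ε / (4 * K) * ((q :: s).map (fun q => (q.2 : ℝ))).sum / I)) =
        Real.exp (-(ε * q.2 / (4 * K * I))) *
          Real.exp (-(ε / (4 * K) * (s.map (fun q => (q.2 : ℝ))).sum / I)) := by
      rw [← Real.exp_add, List.map_cons, List.sum_cons]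
      congr 1
      field_simp
      ring
    have hx1 : Real.exp (-(ε * q.2 / (4 * K * I))) ≤ 1 := by
      rw [Real.exp_le_one_iff]
      have : 0 ≤ ε * q.2 / (4 * K * I) := by positivity
      linarith
    have hsum : 0 ≤ (s.map (fun q => (q.2 : ℝ))).sum := by
      refine List.sum_nonneg fun a ha => ?_
      obtain ⟨q, _, rfl⟩ := List.mem_map.1 ha
      positivity
    have hx2 : Real.exp (-(ε / (4 * K) * (s.map (fun q => (q.2 : ℝ))).sum / I)) ≤ 1 := by
      rw [Real.exp_le_one_iff]
      have : 0 ≤ ε / (4 * K) * (s.map (fun q => (q.2 : ℝ))).sum / I := by positivity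
      linarith
    have hth1 : th1 K ε I q.2 ≤ 1 := max_le hK1 hx1
    have hth : th K ε I s ≤ 1 := ih.trans (max_le hK1 hx2)
    rw [h1, h2]
    rcases max_cases (2 / K) (Real.exp (-(ε * q.2 / (4 * K * I)))) with h | h
    · refine le_max_of_le_left ?_
      have h3 : th1 K ε I q.2 = 2 / K := h.1
      rw [h3]
      exact mul_le_of_le_one_right (by positivity) hth
    · have h3 : th1 K ε I q.2 = Real.exp (-(ε * q.2 / (4 * K * I))) := h.1
      rcases le_or_gt (th K ε I s) (2 / K) with h4 | h4
      · refine le_max_of_le_left ?_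
        exact (mul_le_of_le_one_left (th_pos s).le hth1).trans h4
      · refine le_max_of_le_right ?_
        rw [h3]
        refine mul_le_mul_of_nonneg_left ?_ (Real.exp_pos _).le
        rcases le_max_iff.1 ih with h5 | h5
        · exact absurd h5 (not_le.2 h4)
        · exact h5

/-- the numerical part of the step -/
theorem numeric {K ε I u N Δ R B n : ℝ} (hK : 8 ≤ K) (hI : 0 < I) (hu : 0 < u) (huI : u ≤ I)
    (hN : 0 ≤ N) (hΔ : 0 ≤ Δ) (hRd : R = min (ε * n) (K * u)) (hR : 0 < R)
    (h : N ≤ Δ * (1 / R + 1 / u) + B) (hB : B ≤ N / 2) (hB2 : K * u ≤ ε * n → B ≤ N / K) :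
    R * N ≤ 4 * K * Δ ∧
      N * u - Δ ≤ N * (max (2 / K) (Real.exp (-(ε * n / (4 * K * I)))) * u) := by
  have hK0 : 0 < K := by linarith
  rcases le_or_gt (K * u) (ε * n) with hc | hc
  · have hR' : R = K * u := by rw [hRd]; exact min_eq_right hc
    have h1 := hB2 hc
    have h2 : Δ * (1 / R + 1 / u) = Δ / u * (1 + 1 / K) := by
      rw [hR']
      field_simp
      ring
    rw [h2] at h
    obtain ⟨d, hd⟩ : ∃ d, d = Δ / u := ⟨_, rfl⟩
    rw [← hd] at h
    have hd0 : 0 ≤ d := by rw [hd]; positivity
    have hΔd : Δ = d * u := by rw [hd]; field_simp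
    obtain ⟨k, hk⟩ : ∃ k, k = 1 / K := ⟨_, rfl⟩
    have hk0 : 0 < k := by rw [hk]; positivity
    have hk8 : k ≤ 1 / 8 := by rw [hk]; exact one_div_le_one_div_of_le (by norm_num) hK
    have hNK : N / K = N * k := by rw [hk]; ring
    have h2K : 2 / K = 2 * k := by rw [hk]; ring
    rw [hNK] at h1
    rw [← hk] at h
    -- `N (1 - k) ≤ d (1 + k)`
    have h3 : N * (1 - 2 * k) ≤ d := by
      have h4 : N * (1 - k) ≤ d * (1 + k) := by linarith
      have h5 : N * (1 - 2 * k) * (1 + k) ≤ d * (1 + k) := by
        have h6 : N * (1 - 2 * k) * (1 + k) = N * (1 - k) - N * (2 * k ^ 2) := by ring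
        rw [h6]
        have : 0 ≤ N * (2 * k ^ 2) := by positivity
        linarith
      exact le_of_mul_le_mul_right h5 (by linarith)
    refine ⟨?_, ?_⟩
    · rw [hR', hΔd]
      have h4 : N ≤ 4 * d := by
        have : N * (1 / 4) ≤ N * (1 - 2 * k) := mul_le_mul_of_nonneg_left (by linarith) hN
        linarith
      have h5 : 0 ≤ K * u := by positivity
      nlinarith
    · have h4 : 2 / K * u ≤ max (2 / K) (Real.exp (-(ε * n / (4 * K * I)))) * u :=
        mul_le_mul_of_nonneg_right (le_max_left _ _) hu.le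
      have h5 := mul_le_mul_of_nonneg_left h4 hN
      refine le_trans ?_ h5
      rw [hΔd, h2K]
      nlinarith
  · have hR' : R = ε * n := by rw [hRd]; exact min_eq_left hc.le
    have hRu : R ≤ K * u := by rw [hR']; exact hc.le
    have h1 : Δ * (1 / R + 1 / u) ≤ Δ * ((1 + K) / R) := by
      refine mul_le_mul_of_nonneg_left ?_ hΔ
      have : 1 / u ≤ K / R := by
        rw [div_le_div_iff₀ hu hR, one_mul]
        exact hRu
      rw [add_div]
      linarith
    have h2 : N / 2 * R ≤ Δ * (1 + K) := by
      have h3 : N / 2 ≤ Δ * ((1 + K) / R) := by linarith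
      have h4 := mul_le_mul_of_nonneg_right h3 hR.le
      have h5 : Δ * ((1 + K) / R) * R = Δ * (1 + K) := by field_simp
      linarith
    have h3 : R * N ≤ 4 * K * Δ := by nlinarith
    refine ⟨h3, ?_⟩
    have h4 : Real.exp (-(ε * n / (4 * K * I))) * u ≤
        max (2 / K) (Real.exp (-(ε * n / (4 * K * I)))) * u :=
      mul_le_mul_of_nonneg_right (le_max_right _ _) hu.le
    refine le_trans ?_ (mul_le_mul_of_nonneg_left h4 hN)
    have h5 := Real.add_one_le_exp (-(ε * n / (4 * K * I)))
    have h6 : N * ((-(ε * n / (4 * K * I)) + 1) * u) ≤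
        N * (Real.exp (-(ε * n / (4 * K * I))) * u) :=
      mul_le_mul_of_nonneg_left (mul_le_mul_of_nonneg_right h5 hu.le) hN
    refine le_trans ?_ h6
    have h7 : R / (4 * K * I) * u ≤ R / (4 * K) := by
      rw [div_mul_eq_mul_div, div_le_div_iff₀ (by positivity) (by positivity)]
      have : R * u ≤ R * I := mul_le_mul_of_nonneg_left huI hR.le
      nlinarith
    have h8 : N * (R / (4 * K)) ≤ Δ := by
      rw [mul_div_assoc', div_le_iff₀ (by positivity)]
      linarith
    rw [← hR']
    have h9 := mul_le_mul_of_nonneg_left h7 hN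
    nlinarith

/-- **All primes.** -/
theorem main_ind {η t0 K e I : ℝ} (hN : NodeP η t0) (hη : 0 < η) (hη1 : η ≤ 1) (ht0 : 0 < t0)
    (ht1 : t0 ≤ 1 / 2) (hK : 8 ≤ K) (he : 0 < e) (he1 : e ≤ 1) (hI : 0 < I) (s : List (ℕ × ℕ)) :
    (∀ q ∈ s, q.1.Prime ∧ 2 ≤ q.2) → ∀ (X W : Finset ℤ) (z : ℤ) (D : List ℕ → ℕ), z ∈ W →
      X.Nonempty → Good s D → (∀ t, InBox s t → D t ≠ 0) →
      Real.log X.card + Real.log W.card ≤ I →
      Av s (fun t => ∑ x ∈ X, mc η t0 K (η * t0 * e / (4 * K)) s X (sm (D t) W) x ((D t : ℤ) * z)) ≤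
        X.card * ((η + 4 * K * e + th K (η * t0 * e / (4 * K)) I s) *
          (Real.log X.card + Real.log W.card)) := by
  classical
  obtain ⟨ε, hε⟩ : ∃ ε, ε = η * t0 * e / (4 * K) := ⟨_, rfl⟩
  have hK0 : 0 < K := by linarith
  have hε0 : 0 < ε := by rw [hε]; positivity
  obtain ⟨κ, hκ⟩ : ∃ κ, κ = η + 4 * K * e := ⟨_, rfl⟩
  have hκ0 : 0 ≤ κ := by rw [hκ]; positivity
  have hb0 : 0 < η * t0 := mul_pos hη ht0
  have hbt : η * t0 ≤ t0 := mul_le_of_le_one_left ht0.le hη1
  have hεb : 4 * ε / (η * t0 * e) = 1 / K := by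
    rw [hε]
    field_simp
  have hεt : ε ≤ t0 := by
    rw [hε, div_le_iff₀ (by positivity)]
    have h1 : η * t0 * e ≤ t0 * 1 := mul_le_mul hbt he1 he.le ht0.le
    nlinarith
  rw [← hε, ← hκ]
  induction s with
  | nil =>
    intro _ X W z D hz hX _ _ _
    simp only [Av, mc]
    rw [Finset.sum_const, nsmul_eq_mul]
    refine mul_le_mul_of_nonneg_left ?_ (Nat.cast_nonneg _)
    have h1 : th K ε I [] = 1 := by
      unfold th
      simp
    have h2 : 0 ≤ Real.log X.card := Real.log_natCast_nonneg _
    have h3 : 0 ≤ Real.log W.card := Real.log_natCast_nonneg _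
    have h4 := mul_nonneg hκ0 (add_nonneg h2 h3)
    rw [h1, add_mul, one_mul]
    linarith
  | cons q s ih =>
    obtain ⟨p, n⟩ := q
    intro hs X W z D hz hX hGood hD0 huI
    have hp : p.Prime := (hs (p, n) (List.mem_cons_self ..)).1
    have hn2 : 2 ≤ n := (hs (p, n) (List.mem_cons_self ..)).2
    have hs' : ∀ q ∈ s, q.1.Prime ∧ 2 ≤ q.2 := fun q hq => hs q (List.mem_cons_of_mem _ hq)
    have hsn : ∀ q ∈ s, q.2 ≠ 0 := fun q hq => by
      have := (hs' q hq).2
      omega
    obtain ⟨⟨c, hcinj, hcval⟩, hGood'⟩ := hGood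
    have hn0 : (0 : ℝ) < n := by
      have : 0 < n := by omega
      exact_mod_cast this
    have hXc : (0 : ℝ) < X.card := by exact_mod_cast hX.card_pos
    obtain ⟨u, hu⟩ : ∃ u, u = Real.log X.card + Real.log W.card := ⟨_, rfl⟩
    have hlX : 0 ≤ Real.log X.card := Real.log_natCast_nonneg _
    have hlW : 0 ≤ Real.log W.card := Real.log_natCast_nonneg _
    have hu0 : 0 ≤ u := by rw [hu]; exact add_nonneg hlX hlW
    obtain ⟨R, hR⟩ : ∃ R, R = min (ε * n) (K * u) := ⟨_, rfl⟩
    have hR0 : 0 ≤ R := by
      rw [hR]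
      exact le_min (by positivity) (by positivity)
    have hRn : R ≤ t0 * n := by
      rw [hR]
      exact (min_le_left _ _).trans (mul_le_mul_of_nonneg_right hεt hn0.le)
    have heR : 0 ≤ e * R := mul_nonneg he.le hR0
    obtain ⟨b, hb⟩ : ∃ b, b = η * t0 := ⟨_, rfl⟩
    obtain ⟨dl, hdl⟩ : ∃ dl : ℕ → ℤ → ℝ, dl = fun i x => dlt t0 b R e p (c i) X W z x :=
      ⟨_, rfl⟩
    obtain ⟨θ, hθ⟩ : ∃ θ, θ = th K ε I s := ⟨_, rfl⟩
    have hθ0 : 0 < θ := by rw [hθ]; exact th_pos s
    -- one shift
    have hshift : ∀ i ∈ Finset.range n, Av s (fun t => ∑ x ∈ X, mc η t0 K ε ((p, n) :: s) X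
        (sm (D (i :: t)) W) x ((D (i :: t) : ℤ) * z)) ≤
        ∑ x ∈ X, (η * dl i x + e * R) + ∑ x ∈ X, (κ + θ) * (u - dl i x) := by
      intro i hi
      rw [Finset.mem_range] at hi
      obtain ⟨T, hT⟩ : ∃ T : ℤ → ℕ, T = Tw t0 b R e p (c i) X W z := ⟨_, rfl⟩
      have h1 : ∀ t, InBox s t → ∑ x ∈ X, mc η t0 K ε ((p, n) :: s) X (sm (D (i :: t)) W) x
          ((D (i :: t) : ℤ) * z) ≤ ∑ x ∈ X, (η * dl i x + e * R) +
          ∑ x ∈ X, mc η t0 K ε s (cls p (T x) X x) (sm (D (i :: t)) (cls p (T x - c i) W z)) x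
            ((D (i :: t) : ℤ) * z) := by
        intro t ht
        have hD : D (i :: t) ≠ 0 := hD0 _ (List.Forall₂.cons hi ht)
        have hv : padicValNat p (D (i :: t)) = c i := hcval i hi t ht
        have h2 := cost_one (R := R) (e := e) hN heR hp hD (X := X) hz
        rw [hv, ← hb] at h2
        have h3 : ∀ x ∈ X, mc η t0 K ε ((p, n) :: s) X (sm (D (i :: t)) W) x
            ((D (i :: t) : ℤ) * z) ≤ ∑ l ∈ Finset.range (T x),
              nc η t0 p l X (sm (D (i :: t)) W) x ((D (i :: t) : ℤ) * z) +
            mc η t0 K ε s (cls p (T x) X x) (sm (D (i :: t)) (cls p (T x - c i) W z)) x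
              ((D (i :: t) : ℤ) * z) := by
          intro x hx
          obtain ⟨j, hj, hjT⟩ := lev_eq (b := b) (e := e) ht0 hp hD hRn X W x z hx hz
          have hthr : thr K ε n X (sm (D (i :: t)) W) = R := by
            unfold thr
            rw [card_sm hD, ← hu, hR]
          simp only [mc]
          refine (Finset.inf'_le _ hj).trans (le_of_eq ?_)
          rw [hthr, hjT, hv, cls_sm hp hD, hv, ← hT]
        refine (Finset.sum_le_sum h3).trans ?_
        rw [Finset.sum_add_distrib]
        refine add_le_add ?_ le_rfl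
        rw [hT, hdl]
        exact h2
      refine (Av_mono s _ _ h1).trans ?_
      rw [Av_add s (fun _ => ∑ x ∈ X, (η * dl i x + e * R)), Av_const s hsn, Av_sum]
      refine add_le_add le_rfl ?_
      refine part_sum X (leaf t0 b R e p (c i) X W z) (fun x _ => Finset.filter_subset _ _)
        (fun x hx => self_mem_cls hx) (fun x hx y hy => leaf_leaf hp.two_le hx hz hy) _ _ ?_
      intro x hx
      have hlf : leaf t0 b R e p (c i) X W z x = cls p (T x) X x := by
        rw [hT]
        rfl
      have h4 : ∀ x' ∈ leaf t0 b R e p (c i) X W z x, Av s (fun t => mc η t0 K ε s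
          (cls p (T x') X x') (sm (D (i :: t)) (cls p (T x' - c i) W z)) x'
            ((D (i :: t) : ℤ) * z)) = Av s (fun t => mc η t0 K ε s
          (cls p (T x) X x) (sm (D (i :: t)) (cls p (T x - c i) W z)) x'
            ((D (i :: t) : ℤ) * z)) := by
        intro x' hx'
        have h5 : T x' = T x := by
          rw [hT]
          exact Tw_leaf hp.two_le hx hz hx'
        have h6 : cls p (T x') X x' = cls p (T x) X x := by
          have h7 := leaf_leaf hp.two_le hx hz hx'
          have h8 : leaf t0 b R e p (c i) X W z x' = cls p (T x') X x' := by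
            rw [hT]
            rfl
          rw [← h8, h7, hlf]
        rw [h6, h5]
      rw [Finset.sum_congr rfl h4, ← Av_sum, hlf]
      have h5 : Real.log (cls p (T x) X x).card + Real.log (cls p (T x - c i) W z).card =
          u - dl i x := by
        rw [hdl, hu, ← hlf]
        simp only [dlt]
        rw [← hT]
        ring
      have h6 := ih hs' (cls p (T x) X x) (cls p (T x - c i) W z) z (fun t => D (i :: t))
        (self_mem_cls hz) (cls_nonempty hx) (hGood' i hi)
        (fun t ht => hD0 _ (List.Forall₂.cons hi ht))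
        (by
          rw [h5]
          have h7 : 0 ≤ dl i x := by
            rw [hdl]
            exact dlt_nonneg hx hz
          rw [hu]
          linarith)
      rw [h5, ← hθ] at h6
      exact h6
    -- the sum over the shifts
    have hsum : Av ((p, n) :: s) (fun t => ∑ x ∈ X, mc η t0 K ε ((p, n) :: s) X (sm (D t) W) x
        ((D t : ℤ) * z)) * n ≤ ∑ i ∈ Finset.range n, (∑ x ∈ X, (η * dl i x + e * R) +
          ∑ x ∈ X, (κ + θ) * (u - dl i x)) := by
      simp only [Av]
      rw [div_mul_cancel₀ _ hn0.ne']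
      exact Finset.sum_le_sum hshift
    obtain ⟨Δ, hΔ⟩ : ∃ Δ, Δ = ∑ i ∈ Finset.range n, ∑ x ∈ X, dl i x := ⟨_, rfl⟩
    have hΔ0 : 0 ≤ Δ := by
      rw [hΔ, hdl]
      exact Finset.sum_nonneg fun i _ => Finset.sum_nonneg fun x hx => dlt_nonneg hx hz
    have hesum : ∑ i ∈ Finset.range n, (∑ x ∈ X, (η * dl i x + e * R) +
          ∑ x ∈ X, (κ + θ) * (u - dl i x)) =
        η * Δ + e * (R * (n * X.card)) + (κ + θ) * (n * X.card * u - Δ) := by
      rw [hΔ, Finset.sum_add_distrib]
      congr 1
      · rw [Finset.mul_sum]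
        have : e * (R * (n * X.card)) = ∑ _i ∈ Finset.range n, ∑ _x ∈ X, e * R := by
          simp only [Finset.sum_const, Finset.card_range, nsmul_eq_mul]
          ring
        rw [this, ← Finset.sum_add_distrib]
        refine Finset.sum_congr rfl fun i _ => ?_
        rw [Finset.sum_add_distrib, Finset.mul_sum]
      · have : (n : ℝ) * X.card * u = ∑ _i ∈ Finset.range n, ∑ _x ∈ X, u := by
          simp only [Finset.sum_const, Finset.card_range, nsmul_eq_mul]
          ring
        rw [this, ← Finset.sum_sub_distrib, Finset.mul_sum]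
        refine Finset.sum_congr rfl fun i _ => ?_
        rw [← Finset.sum_sub_distrib, Finset.mul_sum]
    rw [hesum] at hsum
    have hN0 : (0 : ℝ) ≤ n * X.card := by positivity
    -- the two numerical facts
    have hnum : R * (n * X.card) ≤ 4 * K * Δ ∧ n * X.card * u - Δ ≤
        n * X.card * (th1 K ε I n * u) := by
      rcases hu0.eq_or_lt with h0 | hupos
      · have hR' : R = 0 := by
          rw [hR, ← h0, mul_zero]
          exact min_eq_right (by positivity)
        rw [hR', ← h0]
        refine ⟨?_, ?_⟩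
        · rw [zero_mul]
          positivity
        · rw [mul_zero, mul_zero, mul_zero]
          linarith
      · have hRpos : 0 < R := by
          rw [hR]
          exact lt_min (by positivity) (by positivity)
        have h1 := decrease ht0 hb0 hbt hRpos he he1 hp.two_le hz n c hcinj
          (by rw [← hu]; exact hupos) (max 1 (if R ≤ b then 1 else n / K)) ?_ (X := X)
        · rw [← hu, ← hb] at h1
          refine numeric (B := X.card * max 1 (if R ≤ b then 1 else n / K)) hK hI hupos
            (by rw [hu]; exact huI) hN0 hΔ0 hR hRpos ?_ ?_ ?_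
          · rw [hΔ, hdl]
            exact h1
          · have h2 : max 1 (if R ≤ b then (1 : ℝ) else n / K) ≤ n / 2 := by
              have hn2' : (2 : ℝ) ≤ n := by exact_mod_cast hn2
              refine max_le (by linarith) ?_
              split_ifs
              · linarith
              · exact div_le_div_of_nonneg_left hn0.le (by norm_num) (by linarith)
            have h3 := mul_le_mul_of_nonneg_left h2 hXc.le
            linarith
          · intro hKu
            have h2 : R = K * u := by rw [hR]; exact min_eq_right hKu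
            have hlog2 : Real.log 2 ≤ u := by
              have h3 : (2 : ℝ) ≤ X.card * W.card := by
                by_contra hcon
                rw [not_le] at hcon
                have h4 : X.card * W.card < 2 := by exact_mod_cast hcon
                have hXp := hX.card_pos
                have hWp := Finset.card_pos.2 ⟨z, hz⟩
                have h5 : X.card * W.card = 1 := by
                  have : 0 < X.card * W.card := Nat.mul_pos hXp hWp
                  omega
                have h6 := Nat.eq_one_of_mul_eq_one_right h5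
                have h7 := Nat.eq_one_of_mul_eq_one_left h5
                rw [hu, h6, h7] at hupos
                simp at hupos
              have hW0 : (0 : ℝ) < W.card := by
                exact_mod_cast Finset.card_pos.2 ⟨z, hz⟩
              rw [hu, ← Real.log_mul hXc.ne' hW0.ne']
              exact Real.log_le_log (by norm_num) h3
            have h3 := Real.log_two_gt_d9
            have h4 : ¬ R ≤ b := by
              rw [not_le, h2, hb]
              have h5 : 8 * u ≤ K * u := mul_le_mul_of_nonneg_right hK hupos.le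
              have h6 : η * t0 ≤ 1 / 2 := hbt.trans ht1
              linarith
            have h5 : (1 : ℝ) ≤ n / K := by
              -- `K u ≤ ε n` and `u ≥ log 2`, `ε ≤ 1 / (8 K)`
              rw [le_div_iff₀ hK0, one_mul]
              have h6 : ε ≤ 1 / 2 := hεt.trans ht1
              have h7 : K * Real.log 2 ≤ ε * n := (mul_le_mul_of_nonneg_left hlog2 hK0.le).trans hKu
              have h8 : ε * n ≤ 1 / 2 * n := mul_le_mul_of_nonneg_right h6 hn0.le
              nlinarith
            rw [if_neg h4, max_eq_right h5]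
            exact le_of_eq (by ring)
        · constructor
          · intro _
            exact le_max_left _ _
          · intro hRb
            rw [← hb] at hRb
            rw [if_neg (not_le.2 hRb)]
            refine le_max_of_le_right ?_
            have h2 : R ≤ ε * n := by rw [hR]; exact min_le_left _ _
            calc 4 * R / (η * t0 * e) ≤ 4 * (ε * n) / (η * t0 * e) := by gcongr
              _ = 4 * ε / (η * t0 * e) * n := by ring
              _ = n / K := by rw [hεb]; ring
    have hfin : Av ((p, n) :: s) (fun t => ∑ x ∈ X, mc η t0 K ε ((p, n) :: s) X (sm (D t) W) x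
        ((D t : ℤ) * z)) * n ≤ (X.card * ((κ + th K ε I ((p, n) :: s)) * u)) * n := by
      refine hsum.trans ?_
      have h1 : th K ε I ((p, n) :: s) = th1 K ε I n * θ := by
        rw [hθ]
        unfold th
        rw [List.map_cons, List.prod_cons]
      rw [h1]
      have h2 := mul_le_mul_of_nonneg_left hnum.1 he.le
      have h3 := mul_le_mul_of_nonneg_left hnum.2 hθ0.le
      have h4 : κ * (n * X.card * u) = η * Δ + 4 * K * e * Δ + κ * (n * X.card * u - Δ) := by
        rw [hκ]
        ring
      have h5 : (X.card * ((κ + th1 K ε I n * θ) * u)) * (n : ℝ) =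
          κ * (n * X.card * u) + θ * (n * X.card * (th1 K ε I n * u)) := by ring
      rw [h5, h4]
      nlinarith
    rw [← hu]
    exact le_of_mul_le_mul_right hfin hn0

end Pool.Agent.Helper62.GLP
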