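import Pool.Agent.Helper62.GLP.Defs
import Pool.Agent.Helper62.GLP.Kraft

set_option autoImplicit false

/-!
# Project GL+ (MP_120218, helper62): the cost of a pair `(x, y)` given `x + y`
-/

namespace Pool.Agent.Helper62.GLP

open Finset Pool.Agent.Helper15.GL

/-- `node_code` as a predicate -/
def NodeP (η t0 : ℝ) : Prop :=
  ∀ (G : Type) [Fintype G] [AddCommGroup G] (f g : G → ℝ),
    (∀ a, 0 ≤ f a) → (∀ a, 0 ≤ g a) → ∑ a, f a = 1 → ∑ a, g a = 1 →
    ∃ W : G → G → ℝ, IsCode η t0 f g W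

/-- the entropy of the `l`-th digit in the class of `x` modulo `p ^ l` -/
noncomputable def al (p l : ℕ) (X : Finset ℤ) (x : ℤ) : ℝ :=
  (∑ y ∈ cls p l X x, ell p l X y) / (cls p l X x).card

theorem al_nonneg (p l : ℕ) (X : Finset ℤ) (x : ℤ) : 0 ≤ al p l X x :=
  div_nonneg (Finset.sum_nonneg fun y hy => ell_nonneg p l X y (mem_cls.1 hy).1)
    (Nat.cast_nonneg _)

theorem al_cls {p i l : ℕ} (hil : i ≤ l) {X : Finset ℤ} {x x' : ℤ} (h : x' ∈ cls p l X x) :
    al p i X x' = al p i X x := by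
  unfold al
  rw [cls_eq (mem_cls.1 (cls_anti p hil X x h)).2]

/-- the code for the digits of the class pair -/
noncomputable def Wc (η t0 : ℝ) (p : ℕ) (f g : ZMod p → ℝ) : ZMod p → ZMod p → ℝ := by
  classical
  exact if h : p ≠ 0 then
    (have : NeZero p := ⟨h⟩
     if h' : ∃ W : ZMod p → ZMod p → ℝ, IsCode η t0 f g W then h'.choose else fun _ _ => 0)
  else fun _ _ => 0

theorem Wc_nonneg (η t0 : ℝ) (p : ℕ) (f g : ZMod p → ℝ) (a b : ZMod p) :
    0 ≤ Wc η t0 p f g a b := by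
  unfold Wc
  by_cases h : p ≠ 0
  · rw [dif_pos h]
    have : NeZero p := ⟨h⟩
    by_cases h' : ∃ W : ZMod p → ZMod p → ℝ, IsCode η t0 f g W
    · rw [dif_pos h']
      exact h'.choose_spec.nonneg a b
    · rw [dif_neg h']
  · rw [dif_neg h]

theorem Wc_spec {η t0 : ℝ} (hN : NodeP η t0) (p : ℕ) [NeZero p] (f g : ZMod p → ℝ)
    (hf : ∀ a, 0 ≤ f a) (hg : ∀ a, 0 ≤ g a) (hf1 : ∑ a, f a = 1) (hg1 : ∑ a, g a = 1) :
    IsCode η t0 f g (Wc η t0 p f g) := by
  unfold Wc
  have h : p ≠ 0 := NeZero.ne p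
  have h' : ∃ W : ZMod p → ZMod p → ℝ, IsCode η t0 f g W := hN (ZMod p) f g hf hg hf1 hg1
  rw [dif_pos h]
  rw [dif_pos h']
  exact h'.choose_spec

/-- the code at the level `l` for the pair of classes of `x` and `y` -/
noncomputable def Wn (η t0 : ℝ) (p l : ℕ) (X Y : Finset ℤ) (x y : ℤ) : ZMod p → ZMod p → ℝ :=
  Wc η t0 p (law (cls p l X x) (dig p l)) (law (cls p l Y y) (dig p l))

/-- the cost of the `l`-th digits of `x` and `y` -/
noncomputable def nc (η t0 : ℝ) (p l : ℕ) (X Y : Finset ℤ) (x y : ℤ) : ℝ :=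
  -Real.log (Wn η t0 p l X Y x y (dig p l x) (dig p l y))

theorem Wn_spec {η t0 : ℝ} (hN : NodeP η t0) (p l : ℕ) [NeZero p] (X Y : Finset ℤ) (x y : ℤ)
    (hx : x ∈ X) (hy : y ∈ Y) : IsCode η t0 (law (cls p l X x) (dig p l))
      (law (cls p l Y y) (dig p l)) (Wn η t0 p l X Y x y) :=
  Wc_spec hN p _ _ (law_nonneg _ _) (law_nonneg _ _) (sum_law _ (cls_nonempty hx) _)
    (sum_law _ (cls_nonempty hy) _)

theorem law_dig_pos (p l : ℕ) (X : Finset ℤ) (x0 x : ℤ) (hx : x ∈ cls p l X x0) :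
    0 < law (cls p l X x0) (dig p l) (dig p l x) := by
  unfold law
  have h1 : 0 < ((cls p l X x0).filter (fun y => dig p l y = dig p l x)).card :=
    Finset.card_pos.2 ⟨x, Finset.mem_filter.2 ⟨hx, rfl⟩⟩
  have h2 : 0 < (cls p l X x0).card := Finset.card_pos.2 ⟨x, hx⟩
  have h3 : (0 : ℝ) < ((cls p l X x0).filter (fun y => dig p l y = dig p l x)).card := by
    exact_mod_cast h1
  have h4 : (0 : ℝ) < (cls p l X x0).card := by exact_mod_cast h2
  exact div_pos h3 h4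

theorem Wn_pos {η t0 : ℝ} (hN : NodeP η t0) (p l : ℕ) [NeZero p] (X Y : Finset ℤ) (x y : ℤ)
    (hx : x ∈ X) (hy : y ∈ Y) : 0 < Wn η t0 p l X Y x y (dig p l x) (dig p l y) :=
  (Wn_spec hN p l X Y x y hx hy).pos _ _ (law_dig_pos p l X x x (self_mem_cls hx))
    (law_dig_pos p l Y y y (self_mem_cls hy))

/-- what is revealed before the level `l` -/
noncomputable def rev (p l : ℕ) (X Y : Finset ℤ) (x y : ℤ) : ℝ :=
  ∑ i ∈ Finset.range l, al p i X x + (Real.log Y.card - Real.log (cls p l Y y).card)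

/-- the number of levels below `l` with a big digit entropy -/
noncomputable def nbig (t0 : ℝ) (p l : ℕ) (X : Finset ℤ) (x : ℤ) : ℕ := by
  classical exact ((Finset.range l).filter (fun i => t0 ≤ al p i X x)).card

/-- the threshold -/
noncomputable def thr (K ε : ℝ) (n : ℕ) (X Y : Finset ℤ) : ℝ :=
  min (ε * n) (K * (Real.log X.card + Real.log Y.card))

/-- the stopping rule with the announced number `i` -/
def St (t0 R : ℝ) (p : ℕ) (X Y : Finset ℤ) (i l : ℕ) (x y : ℤ) : Prop :=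
  R ≤ rev p l X Y x y ∨ ((cls p l X x).card = 1 ∧ (cls p l Y y).card = 1) ∨
    (t0 ≤ al p l X x ∧ nbig t0 p l X x = i)

/-- the level at which `(x, y)` is stopped -/
noncomputable def lev (t0 R : ℝ) (p : ℕ) (X Y : Finset ℤ) (i : ℕ) (x y : ℤ) : ℕ :=
  sInf {l | St t0 R p X Y i l x y}

/-- the cost of `(x, y)` given `x + y` -/
noncomputable def mc (η t0 K ε : ℝ) : List (ℕ × ℕ) → Finset ℤ → Finset ℤ → ℤ → ℤ → ℝ
  | [], X, _, _, _ => Real.log X.card
  | (p, n) :: s, X, Y, x, y => (Finset.range (n + 2)).inf' ⟨0, by simp⟩ (fun i =>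
      ∑ l ∈ Finset.range (lev t0 (thr K ε n X Y) p X Y i x y), nc η t0 p l X Y x y +
      mc η t0 K ε s (cls p (lev t0 (thr K ε n X Y) p X Y i x y) X x)
        (cls p (lev t0 (thr K ε n X Y) p X Y i x y) Y y) x y)

theorem rev_cls {p j l : ℕ} (h : j ≤ l) {X Y : Finset ℤ} {x x' y y' : ℤ}
    (hx : x' ∈ cls p l X x) (hy : y' ∈ cls p l Y y) : rev p j X Y x' y' = rev p j X Y x y := by
  unfold rev
  rw [cls_eq (mem_cls.1 (cls_anti p h Y y hy)).2]
  congr 1
  refine Finset.sum_congr rfl fun i hi => ?_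
  exact al_cls ((Finset.mem_range.1 hi).le.trans h) hx

theorem nbig_cls {t0 : ℝ} {p j l : ℕ} (h : j ≤ l) {X : Finset ℤ} {x x' : ℤ}
    (hx : x' ∈ cls p l X x) : nbig t0 p j X x' = nbig t0 p j X x := by
  unfold nbig
  congr 1
  refine Finset.filter_congr fun i hi => ?_
  rw [al_cls ((Finset.mem_range.1 hi).le.trans h) hx]

theorem St_cls {t0 R : ℝ} {p j l i : ℕ} (h : j ≤ l) {X Y : Finset ℤ} {x x' y y' : ℤ}
    (hx : x' ∈ cls p l X x) (hy : y' ∈ cls p l Y y) :
    St t0 R p X Y i j x' y' ↔ St t0 R p X Y i j x y := by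
  unfold St
  rw [rev_cls h hx hy, nbig_cls h hx, al_cls h hx, cls_eq (mem_cls.1 (cls_anti p h Y y hy)).2,
    cls_eq (mem_cls.1 (cls_anti p h X x hx)).2]

theorem exists_St (t0 R : ℝ) {p : ℕ} (hp : 2 ≤ p) (X Y : Finset ℤ) (i : ℕ) (x y : ℤ)
    (hx : x ∈ X) (hy : y ∈ Y) : {l | St t0 R p X Y i l x y}.Nonempty := by
  obtain ⟨J1, h1⟩ := exists_singleton p hp X
  obtain ⟨J2, h2⟩ := exists_singleton p hp Y
  refine ⟨max J1 J2, Or.inr (Or.inl ⟨?_, ?_⟩)⟩
  · rw [h1 _ (le_max_left _ _) x hx, Finset.card_singleton]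
  · rw [h2 _ (le_max_right _ _) y hy, Finset.card_singleton]

theorem lev_cls {t0 R : ℝ} {p : ℕ} (hp : 2 ≤ p) {X Y : Finset ℤ} {i l : ℕ} {x x' y y' : ℤ}
    (hxX : x ∈ X) (hyY : y ∈ Y) (hl : l ≤ lev t0 R p X Y i x y)
    (hx : x' ∈ cls p l X x) (hy : y' ∈ cls p l Y y) :
    l ≤ lev t0 R p X Y i x' y' ∧ (lev t0 R p X Y i x y = l → lev t0 R p X Y i x' y' = l) := by
  have h1 := Nat.sInf_mem (exists_St t0 R hp X Y i x y hxX hyY)
  have h2 := Nat.sInf_mem (exists_St t0 R hp X Y i x' y' (mem_cls.1 hx).1 (mem_cls.1 hy).1)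
  have h3 : l ≤ lev t0 R p X Y i x' y' := by
    by_contra hcon
    rw [not_le] at hcon
    have h4 : St t0 R p X Y i (lev t0 R p X Y i x' y') x y := (St_cls hcon.le hx hy).1 h2
    have h5 : lev t0 R p X Y i x y ≤ lev t0 R p X Y i x' y' := Nat.sInf_le h4
    omega
  refine ⟨h3, fun h => le_antisymm ?_ h3⟩
  have h4 : St t0 R p X Y i l x y := by
    have h6 : St t0 R p X Y i (lev t0 R p X Y i x y) x y := h1
    rwa [h] at h6
  exact Nat.sInf_le (s := {l | St t0 R p X Y i l x' y'}) ((St_cls le_rfl hx hy).2 h4)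

theorem psum_mono {X Y : Finset ℤ} {F G : ℤ → ℤ → ℝ} (h : ∀ x ∈ X, ∀ y ∈ Y, F x y ≤ G x y)
    (s : ℤ) : psum X Y F s ≤ psum X Y G s := by
  unfold psum
  refine Finset.sum_le_sum fun x hx => ?_
  rw [Finset.mem_filter] at hx
  exact h x hx.1 _ hx.2

theorem psum_sum {ι : Type} (T : Finset ι) (X Y : Finset ℤ) (F : ι → ℤ → ℤ → ℝ) (s : ℤ) :
    psum X Y (fun x y => ∑ i ∈ T, F i x y) s = ∑ i ∈ T, psum X Y (F i) s := by
  unfold psum
  exact Finset.sum_comm

theorem exp_neg_inf' {ι : Type} (T : Finset ι) (hT : T.Nonempty) (F : ι → ℝ) :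
    Real.exp (-T.inf' hT F) ≤ ∑ i ∈ T, Real.exp (-F i) := by
  obtain ⟨i, hi, h⟩ := Finset.exists_mem_eq_inf' hT F
  rw [h]
  exact Finset.single_le_sum (f := fun i => Real.exp (-F i)) (fun i _ => (Real.exp_pos _).le) hi

/-- **Kraft's inequality for the cost.** -/
theorem mc_kraft {η t0 : ℝ} (K ε : ℝ) (hN : NodeP η t0) (s : List (ℕ × ℕ))
    (hs : ∀ q ∈ s, 2 ≤ q.1) : ∀ (X Y : Finset ℤ) (σ : ℤ),
    psum X Y (fun x y => Real.exp (-mc η t0 K ε s X Y x y)) σ ≤
      (s.map (fun q => (q.2 : ℝ) + 2)).prod := by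
  induction s with
  | nil =>
    intro X Y σ
    rw [List.map_nil, List.prod_nil]
    unfold psum
    simp only [mc]
    rw [Finset.sum_const, nsmul_eq_mul]
    rcases X.eq_empty_or_nonempty with h | h
    · rw [h]
      simp
    · have h1 : (0 : ℝ) < X.card := by exact_mod_cast h.card_pos
      rw [Real.exp_neg, Real.exp_log h1]
      have h2 : ((X.filter (fun x => σ - x ∈ Y)).card : ℝ) ≤ X.card := by
        exact_mod_cast Finset.card_filter_le _ _
      rw [← div_eq_mul_inv, div_le_one h1]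
      exact h2
  | cons q s ih =>
    obtain ⟨p, n⟩ := q
    intro X Y σ
    have hp : 2 ≤ p := hs (p, n) (List.mem_cons_self ..)
    have ih' := ih (fun q hq => hs q (List.mem_cons_of_mem _ hq))
    have : NeZero p := ⟨by omega⟩
    obtain ⟨M, hM⟩ : ∃ M : ℝ, M = (s.map (fun q => (q.2 : ℝ) + 2)).prod := ⟨_, rfl⟩
    have hM0 : 0 ≤ M := by
      rw [hM]
      refine List.prod_nonneg fun a ha => ?_
      obtain ⟨q, _, rfl⟩ := List.mem_map.1 ha
      positivity
    rw [← hM] at ih'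
    rw [List.map_cons, List.prod_cons, ← hM]
    have h1 : psum X Y (fun x y => Real.exp (-mc η t0 K ε ((p, n) :: s) X Y x y)) σ ≤
        psum X Y (fun x y => ∑ i ∈ Finset.range (n + 2), Real.exp
          (-(∑ l ∈ Finset.range (lev t0 (thr K ε n X Y) p X Y i x y), nc η t0 p l X Y x y +
      mc η t0 K ε s (cls p (lev t0 (thr K ε n X Y) p X Y i x y) X x)
        (cls p (lev t0 (thr K ε n X Y) p X Y i x y) Y y) x y))) σ := by
      refine psum_mono (fun x _ y _ => ?_) σ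
      simp only [mc]
      exact exp_neg_inf' _ _ _
    refine h1.trans ?_
    rw [psum_sum]
    have h2 : ∀ i ∈ Finset.range (n + 2), psum X Y (fun x y => Real.exp
          (-(∑ l ∈ Finset.range (lev t0 (thr K ε n X Y) p X Y i x y), nc η t0 p l X Y x y +
      mc η t0 K ε s (cls p (lev t0 (thr K ε n X Y) p X Y i x y) X x)
        (cls p (lev t0 (thr K ε n X Y) p X Y i x y) Y y) x y))) σ ≤ M := by
      intro i _
      have h3 := kraft_stop p (by omega) X Y (fun x y => lev t0 (thr K ε n X Y) p X Y i x y)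
        (fun l x hx y hy hl x' hx' y' hy' => lev_cls hp hx hy hl hx' hy')
        (fun l x y => Wn η t0 p l X Y x y)
        (fun l x y a b => Wc_nonneg _ _ _ _ _ _ _)
        (fun l x _ y _ x' hx' y' hy' => by
          unfold Wn
          rw [cls_eq (mem_cls.1 hx').2, cls_eq (mem_cls.1 hy').2])
        (fun l x hx y hy s => (Wn_spec hN p l X Y x y hx hy).kraft s)
        (fun l x y => Real.exp (-mc η t0 K ε s (cls p l X x) (cls p l Y y) x y)) M hM0
        (fun l x _ y _ s => by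
          refine le_trans (psum_mono (fun x' hx' y' hy' => ?_) s)
            (ih' (cls p l X x) (cls p l Y y) s)
          rw [cls_eq (mem_cls.1 hx').2, cls_eq (mem_cls.1 hy').2]) σ
      refine le_trans (psum_mono (fun x hx y hy => ?_) σ) h3
      rw [neg_add, Real.exp_add, ← Finset.sum_neg_distrib, Real.exp_sum]
      refine mul_le_mul_of_nonneg_right (le_of_eq ?_) (Real.exp_pos _).le
      refine Finset.prod_congr rfl fun l _ => ?_
      unfold nc
      rw [neg_neg, Real.exp_log (Wn_pos hN p l X Y x y hx hy)]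
    refine (Finset.sum_le_sum h2).trans (le_of_eq ?_)
    rw [Finset.sum_const, Finset.card_range, nsmul_eq_mul]
    push_cast
    ring

end Pool.Agent.Helper62.GLP
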