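import Pool.Agent.Helper62.GLP.Sm

set_option autoImplicit false

/-!
# Project GL+ (MP_120218, helper62): accounting for one prime
-/

namespace Pool.Agent.Helper62.GLP

open Finset Pool.Agent.Helper15.GL

theorem Tw_lt {t0 b R e : ℝ} {p c : ℕ} (hp : 2 ≤ p) {X W : Finset ℤ} {z x x' : ℤ} {l : ℕ}
    (hxX : x ∈ X) (hz : z ∈ W) (hx : x' ∈ cls p l X x) :
    l < Tw t0 b R e p c X W z x' ↔ l < Tw t0 b R e p c X W z x := by
  have key : ∀ u ∈ X, (l < Tw t0 b R e p c X W z u ↔ ∀ j ≤ l, ¬ Sw t0 b R e p c X W z j u) := by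
    intro u hu
    constructor
    · intro h j hj hS
      have h1 : Tw t0 b R e p c X W z u ≤ j := Nat.sInf_le hS
      omega
    · intro h
      by_contra hcon
      rw [not_lt] at hcon
      exact h _ hcon (Nat.sInf_mem (exists_Sw t0 b R e hp c X W z u hu hz))
  rw [key x' (mem_cls.1 hx).1, key x hxX]
  refine forall_congr' fun j => ?_
  constructor
  · intro h hj
    rw [← Sw_cls hj hx]
    exact h hj
  · intro h hj
    rw [Sw_cls hj hx]
    exact h hj

/-- sums over the levels below a stopping level -/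
theorem sum_swap (X : Finset ℤ) (T : ℤ → ℕ) (F : ℕ → ℤ → ℝ) (J : ℕ) (hJ : ∀ x ∈ X, T x ≤ J) :
    ∑ x ∈ X, ∑ l ∈ Finset.range (T x), F l x =
      ∑ l ∈ Finset.range J, ∑ x ∈ X, if l < T x then F l x else 0 := by
  rw [Finset.sum_comm]
  refine Finset.sum_congr rfl fun x hx => ?_
  rw [← Finset.sum_filter]
  refine Finset.sum_congr ?_ fun _ _ => rfl
  ext l
  rw [Finset.mem_filter, Finset.mem_range, Finset.mem_range]
  have := hJ x hx
  omega

/-- the cost of the digits at the level `l`, averaged over the class of `x` -/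
theorem class_cost {η t0 : ℝ} (hN : NodeP η t0) (p l : ℕ) [NeZero p] (X Y : Finset ℤ) (x y : ℤ)
    (hx : x ∈ X) (hy : y ∈ Y) : ∑ x' ∈ cls p l X x, nc η t0 p l X Y x' y ≤
      (cls p l X x).card * (η * (al p l X x + ell p l Y y) +
        if t0 ≤ al p l X x ∧ η * t0 ≤ ell p l Y y then ell p l Y y else 0) := by
  have hC := cls_nonempty (p := p) (j := l) hx
  have hpos := law_dig_pos p l Y y y (self_mem_cls hy)
  have h1 := (Wn_spec hN p l X Y x y hx hy).cost (dig p l y) hpos
  have h2 : -Real.log (law (cls p l Y y) (dig p l) (dig p l y)) = ell p l Y y := by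
    have h3 : law (cls p l Y y) (dig p l) (dig p l y) =
        ((cls p (l + 1) Y y).card : ℝ) / (cls p l Y y).card := by
      unfold law
      rw [filter_dig p l (Nat.pos_of_ne_zero (NeZero.ne p)) Y y y (self_mem_cls hy)]
    have h4 : (0 : ℝ) < (cls p l Y y).card := by
      exact_mod_cast Finset.card_pos.2 (cls_nonempty hy)
    have h5 : (0 : ℝ) < (cls p (l + 1) Y y).card := by
      exact_mod_cast Finset.card_pos.2 (cls_nonempty hy)
    rw [h3, Real.log_div h5.ne' h4.ne']
    unfold ell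
    ring
  have h3 : ent (law (cls p l X x) (dig p l)) = al p l X x := hx_eq p l X x hx
  rw [h2, h3] at h1
  have h4 : ∑ x' ∈ cls p l X x, nc η t0 p l X Y x' y =
      (cls p l X x).card * ∑ u, law (cls p l X x) (dig p l) u *
        (-Real.log (Wn η t0 p l X Y x y u (dig p l y))) := by
    rw [sum_law_mul (cls p l X x) hC (dig p l)
      (fun u => -Real.log (Wn η t0 p l X Y x y u (dig p l y)))]
    refine Finset.sum_congr rfl fun x' hx' => ?_
    unfold nc Wn
    rw [cls_eq (mem_cls.1 hx').2]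
  rw [h4]
  exact mul_le_mul_of_nonneg_left h1 (Nat.cast_nonneg _)

/-- the decrease of the potential -/
noncomputable def dlt (t0 b R e : ℝ) (p c : ℕ) (X W : Finset ℤ) (z x : ℤ) : ℝ :=
  Real.log X.card - Real.log (leaf t0 b R e p c X W z x).card +
    (Real.log W.card - Real.log (cls p (Tw t0 b R e p c X W z x - c) W z).card)

/-- the revealed information is on average the decrease of the potential -/
theorem sum_rw {t0 b R e : ℝ} {p c : ℕ} (hp : 2 ≤ p) {X W : Finset ℤ} {z : ℤ} (hz : z ∈ W) :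
    ∑ x ∈ X, rw' p c (Tw t0 b R e p c X W z x) X W x z =
      ∑ x ∈ X, dlt t0 b R e p c X W z x := by
  obtain ⟨T, hT⟩ : ∃ T : ℤ → ℕ, T = Tw t0 b R e p c X W z := ⟨_, rfl⟩
  have hTlt : ∀ l, ∀ x ∈ X, ∀ x' ∈ cls p l X x, (l < T x' ↔ l < T x) := by
    intro l x hx x' hx'
    rw [hT]
    exact Tw_lt hp hx hz hx'
  have h1 : ∑ x ∈ X, ∑ l ∈ Finset.range (T x), al p l X x =
      ∑ x ∈ X, ∑ l ∈ Finset.range (T x), ell p l X x := by
    have hJ : ∀ x ∈ X, T x ≤ X.sup T := fun x hx => Finset.le_sup (f := T) hx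
    rw [sum_swap X T (fun l x => al p l X x) _ hJ, sum_swap X T (fun l x => ell p l X x) _ hJ]
    refine Finset.sum_congr rfl fun l _ => ?_
    rw [← part_avg X (cls p l X) (fun x _ => Finset.filter_subset _ _)
      (fun x hx => self_mem_cls hx) (fun x _ y hy => cls_eq (mem_cls.1 hy).2)
      (fun x => if l < T x then ell p l X x else 0)]
    refine Finset.sum_congr rfl fun x hx => ?_
    have h2 : ∑ y ∈ cls p l X x, (if l < T y then ell p l X y else 0) =
        if l < T x then ∑ y ∈ cls p l X x, ell p l X y else 0 := by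
      by_cases h : l < T x
      · rw [if_pos h]
        exact Finset.sum_congr rfl fun y hy => if_pos ((hTlt l x hx y hy).2 h)
      · rw [if_neg h]
        exact Finset.sum_eq_zero fun y hy => if_neg fun h' => h ((hTlt l x hx y hy).1 h')
    rw [h2]
    by_cases h : l < T x
    · rw [if_pos h, if_pos h]
      rfl
    · rw [if_neg h, if_neg h, zero_div]
  unfold rw' dlt leaf
  rw [← hT, Finset.sum_add_distrib, h1, Finset.sum_add_distrib]
  congr 1
  · exact Finset.sum_congr rfl fun x _ => sum_ell p (T x) X x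
  · exact Finset.sum_congr rfl fun x _ => sum_ell p (T x - c) W z

/-- **The cost of one prime.** -/
theorem cost_one {η t0 R e : ℝ} (hN : NodeP η t0) (heR : 0 ≤ e * R)
    {p D : ℕ} (hp : p.Prime) (hD : D ≠ 0) {X W : Finset ℤ} {z : ℤ} (hz : z ∈ W) :
    ∑ x ∈ X, ∑ l ∈ Finset.range (Tw t0 (η * t0) R e p (padicValNat p D) X W z x),
        nc η t0 p l X (sm D W) x ((D : ℤ) * z) ≤
      ∑ x ∈ X, (η * dlt t0 (η * t0) R e p (padicValNat p D) X W z x + e * R) := by
  have : NeZero p := ⟨hp.ne_zero⟩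
  obtain ⟨c, hc⟩ : ∃ c, c = padicValNat p D := ⟨_, rfl⟩
  obtain ⟨b, hb⟩ : ∃ b, b = η * t0 := ⟨_, rfl⟩
  obtain ⟨T, hT⟩ : ∃ T : ℤ → ℕ, T = Tw t0 b R e p c X W z := ⟨_, rfl⟩
  have hy : (D : ℤ) * z ∈ sm D W := mem_sm.2 ⟨z, hz, rfl⟩
  have hTlt : ∀ l, ∀ x ∈ X, ∀ x' ∈ cls p l X x, (l < T x' ↔ l < T x) := by
    intro l x hx x' hx'
    rw [hT]
    exact Tw_lt hp.two_le hx hz hx'
  obtain ⟨bd, hbd⟩ : ∃ bd : ℕ → ℤ → ℝ, bd = fun l x => η * (al p l X x +
    shf (fun i => ell p i W z) c l) + if t0 ≤ al p l X x ∧ b ≤ shf (fun i => ell p i W z) c l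
      then shf (fun i => ell p i W z) c l else 0 := ⟨_, rfl⟩
  have hJ : ∀ x ∈ X, T x ≤ X.sup T := fun x hx => Finset.le_sup (f := T) hx
  have h1 : ∑ x ∈ X, ∑ l ∈ Finset.range (T x), nc η t0 p l X (sm D W) x ((D : ℤ) * z) ≤
      ∑ x ∈ X, ∑ l ∈ Finset.range (T x), bd l x := by
    rw [sum_swap X T (fun l x => nc η t0 p l X (sm D W) x ((D : ℤ) * z)) _ hJ,
      sum_swap X T (fun l x => bd l x) _ hJ]
    refine Finset.sum_le_sum fun l _ => ?_
    refine part_sum X (cls p l X) (fun x _ => Finset.filter_subset _ _)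
      (fun x hx => self_mem_cls hx) (fun x _ y hy => cls_eq (mem_cls.1 hy).2) _ _ ?_
    intro x hx
    by_cases h : l < T x
    · have h2 := class_cost hN p l X (sm D W) x ((D : ℤ) * z) hx hy
      rw [ell_sm hp hD, ← hc, ← hb] at h2
      have h3 : ∑ y ∈ cls p l X x, (if l < T y then nc η t0 p l X (sm D W) y ((D : ℤ) * z) else 0)
          = ∑ y ∈ cls p l X x, nc η t0 p l X (sm D W) y ((D : ℤ) * z) :=
        Finset.sum_congr rfl fun y hy' => if_pos ((hTlt l x hx y hy').2 h)
      rw [h3, if_pos h, hbd]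
      exact h2
    · have h3 : ∑ y ∈ cls p l X x, (if l < T y then nc η t0 p l X (sm D W) y ((D : ℤ) * z) else 0)
          = 0 := Finset.sum_eq_zero fun y hy' => if_neg fun h' => h ((hTlt l x hx y hy').1 h')
      rw [h3, if_neg h, mul_zero]
  have h2 : ∑ x ∈ X, ∑ l ∈ Finset.range (T x), bd l x ≤
      ∑ x ∈ X, (η * rw' p c (T x) X W x z + e * R) := by
    refine Finset.sum_le_sum fun x _ => ?_
    have h3 := Lam_le heR (t0 := t0) (b := b) (p := p) (c := c) (X := X) (W := W) (z := z)
      (x := x) (T x) (by rw [hT])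
    have h4 : ∑ l ∈ Finset.range (T x), bd l x = η * rw' p c (T x) X W x z +
        Lam t0 b (fun i => al p i X x) (fun i => ell p i W z) c (T x) := by
      rw [hbd]
      simp only
      rw [Finset.sum_add_distrib, ← Finset.mul_sum, Finset.sum_add_distrib, sum_shf]
      rfl
    rw [h4]
    linarith
  rw [← hb, ← hc, ← hT]
  refine h1.trans (h2.trans (le_of_eq ?_))
  rw [Finset.sum_add_distrib, Finset.sum_add_distrib]
  congr 1
  rw [← Finset.mul_sum, ← Finset.mul_sum, hT, sum_rw hp.two_le hz]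

theorem dlt_nonneg {t0 b R e : ℝ} {p c : ℕ} {X W : Finset ℤ} {z x : ℤ} (hx : x ∈ X)
    (hz : z ∈ W) : 0 ≤ dlt t0 b R e p c X W z x := by
  unfold dlt leaf
  have h1 : (0 : ℝ) < (cls p (Tw t0 b R e p c X W z x) X x).card := by
    exact_mod_cast Finset.card_pos.2 (cls_nonempty hx)
  have h2 : (0 : ℝ) < (cls p (Tw t0 b R e p c X W z x - c) W z).card := by
    exact_mod_cast Finset.card_pos.2 (cls_nonempty hz)
  have h3 := Real.log_le_log h1 (show ((cls p (Tw t0 b R e p c X W z x) X x).card : ℝ) ≤ X.card by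
    exact_mod_cast Finset.card_le_card (Finset.filter_subset _ _))
  have h4 := Real.log_le_log h2
    (show ((cls p (Tw t0 b R e p c X W z x - c) W z).card : ℝ) ≤ W.card by
      exact_mod_cast Finset.card_le_card (Finset.filter_subset _ _))
  linarith

theorem rw_nonneg {p c l : ℕ} {X W : Finset ℤ} {z x : ℤ} (hz : z ∈ W) :
    0 ≤ rw' p c l X W x z := by
  unfold rw'
  exact add_nonneg (Finset.sum_nonneg fun i _ => al_nonneg p i X x)
    (Finset.sum_nonneg fun i _ => ell_nonneg p i W z hz)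

/-- a shift which is not bad reveals at least `R` or everything -/
theorem good_shift {t0 b R e : ℝ} {p c : ℕ} (hp : 2 ≤ p) {X W : Finset ℤ} {z x : ℤ} (hx : x ∈ X)
    (hz : z ∈ W) (hbad : ¬ Bad t0 b R e (fun i => al p i X x) (fun i => ell p i W z) c) :
    R ≤ rw' p c (Tw t0 b R e p c X W z x) X W x z ∨
      dlt t0 b R e p c X W z x = Real.log X.card + Real.log W.card := by
  have h1 : Sw t0 b R e p c X W z (Tw t0 b R e p c X W z x) x :=
    Nat.sInf_mem (exists_Sw t0 b R e hp c X W z x hx hz)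
  rcases h1 with h | h | h
  · exact Or.inl h
  · right
    unfold dlt leaf
    rw [h.1, h.2]
    simp
  · left
    by_contra hcon
    rw [not_le] at hcon
    exact hbad ⟨_, hcon, h.2⟩

/-- the average decrease of the potential over the shifts -/
theorem decrease {t0 b R e : ℝ} (ht0 : 0 < t0) (hb : 0 < b) (hbt : b ≤ t0) (hR : 0 < R)
    (he : 0 < e) (he1 : e ≤ 1) {p : ℕ} (hp : 2 ≤ p) {X W : Finset ℤ} {z : ℤ} (hz : z ∈ W)
    (n : ℕ) (c : ℕ → ℕ) (hc : ∀ i < n, ∀ j < n, c i = c j → i = j)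
    (hu : 0 < Real.log X.card + Real.log W.card) (B : ℝ)
    (hB : (R ≤ b → 1 ≤ B) ∧ (b < R → 4 * R / (b * e) ≤ B)) :
    (n : ℝ) * X.card ≤ (∑ i ∈ Finset.range n, ∑ x ∈ X, dlt t0 b R e p (c i) X W z x) *
      (1 / R + 1 / (Real.log X.card + Real.log W.card)) + X.card * B := by
  classical
  obtain ⟨u, hud⟩ : ∃ u, u = Real.log X.card + Real.log W.card := ⟨_, rfl⟩
  rw [← hud] at hu ⊢
  -- pointwise
  have hpt : ∀ i ∈ Finset.range n, ∀ x ∈ X, (1 : ℝ) ≤
      rw' p (c i) (Tw t0 b R e p (c i) X W z x) X W x z / R + dlt t0 b R e p (c i) X W z x / u +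
      (if Bad t0 b R e (fun i => al p i X x) (fun i => ell p i W z) (c i) then 1 else 0) := by
    intro i _ x hx
    have h1 : 0 ≤ rw' p (c i) (Tw t0 b R e p (c i) X W z x) X W x z / R :=
      div_nonneg (rw_nonneg hz) hR.le
    have h2 : 0 ≤ dlt t0 b R e p (c i) X W z x / u := div_nonneg (dlt_nonneg hx hz) hu.le
    by_cases hbad : Bad t0 b R e (fun i => al p i X x) (fun i => ell p i W z) (c i)
    · rw [if_pos hbad]
      linarith
    · rw [if_neg hbad]
      rcases good_shift hp hx hz hbad with h | h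
      · have h3 : 1 ≤ rw' p (c i) (Tw t0 b R e p (c i) X W z x) X W x z / R := by
          rw [le_div_iff₀ hR, one_mul]
          exact h
        linarith
      · rw [h, ← hud, div_self hu.ne']
        linarith
  have hsum := Finset.sum_le_sum fun i hi => Finset.sum_le_sum fun x hx => hpt i hi x hx
  have e1 : ∑ i ∈ Finset.range n, ∑ x ∈ X, (1 : ℝ) = n * X.card := by
    simp
  have e2 : ∑ i ∈ Finset.range n, ∑ x ∈ X,
      (rw' p (c i) (Tw t0 b R e p (c i) X W z x) X W x z / R + dlt t0 b R e p (c i) X W z x / u +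
      (if Bad t0 b R e (fun i => al p i X x) (fun i => ell p i W z) (c i) then (1 : ℝ) else 0)) =
      (∑ i ∈ Finset.range n, ∑ x ∈ X, dlt t0 b R e p (c i) X W z x) * (1 / R + 1 / u) +
      ∑ i ∈ Finset.range n, ∑ x ∈ X,
        (if Bad t0 b R e (fun i => al p i X x) (fun i => ell p i W z) (c i) then (1 : ℝ) else 0) := by
    rw [Finset.sum_mul, ← Finset.sum_add_distrib]
    refine Finset.sum_congr rfl fun i _ => ?_
    rw [Finset.sum_add_distrib, Finset.sum_add_distrib, ← Finset.sum_div, ← Finset.sum_div,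
      sum_rw hp hz]
    ring
  rw [e1, e2] at hsum
  refine hsum.trans (add_le_add le_rfl ?_)
  rw [Finset.sum_comm]
  have h3 : ∀ x ∈ X, ∑ i ∈ Finset.range n,
      (if Bad t0 b R e (fun i => al p i X x) (fun i => ell p i W z) (c i) then (1 : ℝ) else 0) ≤
      B := by
    intro x hx
    rw [← Finset.sum_filter, Finset.sum_const, nsmul_eq_mul, mul_one]
    have h4 := count_bad (α := fun i => al p i X x) (β := fun i => ell p i W z)
      (fun i => al_nonneg p i X x) (fun i => ell_nonneg p i W z hz) ht0 hb hR he n c hc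
      ((Finset.range n).filter (fun i => Bad t0 b R e (fun i => al p i X x)
        (fun i => ell p i W z) (c i))) (Finset.filter_subset _ _)
      (fun j hj => (Finset.mem_filter.1 hj).2)
    rcases le_or_gt R b with hRb | hRb
    · exact (h4.2 (hRb.trans hbt) hRb).trans (hB.1 hRb)
    · refine h4.1.trans (le_trans ?_ (hB.2 hRb))
      have h5 : R / t0 + 1 ≤ 2 * R / b := by
        have h6 : R / t0 ≤ R / b := div_le_div_of_nonneg_left hR.le hb hbt
        have h7 : 1 ≤ R / b := by
          rw [le_div_iff₀ hb, one_mul]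
          exact hRb.le
        have h8 : 2 * R / b = R / b + R / b := by ring
        linarith
      have h6 : 1 / e + 1 ≤ 2 / e := by
        have h7 : 1 ≤ 1 / e := by
          rw [le_div_iff₀ he, one_mul]
          exact he1
        have h8 : 2 / e = 1 / e + 1 / e := by ring
        linarith
      calc (R / t0 + 1) * (1 / e + 1) ≤ (2 * R / b) * (2 / e) :=
            mul_le_mul h5 h6 (by positivity) (by positivity)
        _ = 4 * R / (b * e) := by
            field_simp
            norm_num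
  refine (Finset.sum_le_sum h3).trans (le_of_eq ?_)
  rw [Finset.sum_const, nsmul_eq_mul]

end Pool.Agent.Helper62.GLP
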