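import Pool.Agent.Helper62.GLP.Mc
import Pool.Agent.Helper62.GLP.Count

set_option autoImplicit false

/-!
# Project GL+ (MP_120218, helper62): multiples of a set and its classes
-/

namespace Pool.Agent.Helper62.GLP

open Finset Pool.Agent.Helper15.GL

/-- the multiples `D w`, `w ∈ W` -/
def sm (D : ℕ) (W : Finset ℤ) : Finset ℤ := W.image (fun w => (D : ℤ) * w)

theorem mem_sm {D : ℕ} {W : Finset ℤ} {y : ℤ} : y ∈ sm D W ↔ ∃ w ∈ W, (D : ℤ) * w = y := by
  unfold sm
  exact Finset.mem_image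

theorem card_sm {D : ℕ} (hD : D ≠ 0) (W : Finset ℤ) : (sm D W).card = W.card := by
  unfold sm
  refine Finset.card_image_of_injective _ ?_
  intro a b h
  have hD' : (D : ℤ) ≠ 0 := by exact_mod_cast hD
  exact mul_left_cancel₀ hD' h

theorem pow_dvd_mul {p : ℕ} (hp : p.Prime) {D : ℕ} (hD : D ≠ 0) (l : ℕ) (a : ℤ) :
    (p : ℤ) ^ l ∣ (D : ℤ) * a ↔ (p : ℤ) ^ (l - padicValNat p D) ∣ a := by
  have := Fact.mk hp
  have h4 : (D : ℤ) ≠ 0 := by exact_mod_cast hD
  rcases eq_or_ne a 0 with rfl | ha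
  · simp
  · rw [padicValInt_dvd_iff, padicValInt_dvd_iff, padicValInt.mul h4 ha, padicValInt.of_nat]
    simp only [mul_eq_zero, ha, h4, or_self, false_or]
    omega

theorem cls_sm {p : ℕ} (hp : p.Prime) {D : ℕ} (hD : D ≠ 0) (l : ℕ) (W : Finset ℤ) (z : ℤ) :
    cls p l (sm D W) ((D : ℤ) * z) = sm D (cls p (l - padicValNat p D) W z) := by
  ext y
  rw [mem_cls, mem_sm, mem_sm]
  constructor
  · rintro ⟨⟨w, hw, rfl⟩, h⟩
    rw [← mul_sub, pow_dvd_mul hp hD] at h
    exact ⟨w, mem_cls.2 ⟨hw, h⟩, rfl⟩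
  · rintro ⟨w, hw, rfl⟩
    rw [mem_cls] at hw
    refine ⟨⟨w, hw.1, rfl⟩, ?_⟩
    rw [← mul_sub, pow_dvd_mul hp hD]
    exact hw.2

theorem ell_sm {p : ℕ} (hp : p.Prime) {D : ℕ} (hD : D ≠ 0) (l : ℕ) (W : Finset ℤ) (z : ℤ) :
    ell p l (sm D W) ((D : ℤ) * z) = shf (fun i => ell p i W z) (padicValNat p D) l := by
  unfold shf
  have h1 : ell p l (sm D W) ((D : ℤ) * z) = Real.log (cls p (l - padicValNat p D) W z).card -
      Real.log (cls p (l + 1 - padicValNat p D) W z).card := by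
    unfold ell
    rw [cls_sm hp hD, cls_sm hp hD, card_sm hD, card_sm hD]
  rw [h1]
  by_cases h : padicValNat p D ≤ l
  · rw [if_pos h]
    have h2 : l + 1 - padicValNat p D = (l - padicValNat p D) + 1 := by omega
    rw [h2]
    rfl
  · rw [if_neg h]
    have h2 : l + 1 - padicValNat p D = 0 := by omega
    have h3 : l - padicValNat p D = 0 := by omega
    rw [h2, h3, sub_self]

theorem sum_shf (β : ℕ → ℝ) (c m : ℕ) :
    ∑ l ∈ Finset.range m, shf β c l = ∑ i ∈ Finset.range (m - c), β i := by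
  induction m with
  | zero => simp
  | succ m ih =>
    rw [Finset.sum_range_succ, ih]
    unfold shf
    by_cases h : c ≤ m
    · rw [if_pos h]
      have h2 : m + 1 - c = (m - c) + 1 := by omega
      rw [h2, Finset.sum_range_succ]
    · rw [if_neg h]
      have h2 : m + 1 - c = 0 := by omega
      have h3 : m - c = 0 := by omega
      rw [h2, h3]
      simp

/-- what is revealed before the level `l`, in terms of `W` -/
noncomputable def rw' (p c l : ℕ) (X W : Finset ℤ) (x z : ℤ) : ℝ :=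
  ∑ i ∈ Finset.range l, al p i X x + ∑ i ∈ Finset.range (l - c), ell p i W z

theorem rev_sm {p : ℕ} (hp : p.Prime) {D : ℕ} (hD : D ≠ 0) (l : ℕ) (X W : Finset ℤ) (x z : ℤ) :
    rev p l X (sm D W) x ((D : ℤ) * z) = rw' p (padicValNat p D) l X W x z := by
  unfold rev rw'
  rw [cls_sm hp hD, card_sm hD, card_sm hD, sum_ell]

/-- the stopping rule in terms of `W` -/
def Sw (t0 b R e : ℝ) (p c : ℕ) (X W : Finset ℤ) (z : ℤ) (l : ℕ) (x : ℤ) : Prop :=
  R ≤ rw' p c l X W x z ∨ ((cls p l X x).card = 1 ∧ (cls p (l - c) W z).card = 1) ∨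
    ((t0 ≤ al p l X x ∧ b ≤ shf (fun i => ell p i W z) c l) ∧
      e * R < Lam t0 b (fun i => al p i X x) (fun i => ell p i W z) c (l + 1))

/-- the level at which the pair is stopped -/
noncomputable def Tw (t0 b R e : ℝ) (p c : ℕ) (X W : Finset ℤ) (z : ℤ) (x : ℤ) : ℕ :=
  sInf {l | Sw t0 b R e p c X W z l x}

theorem exists_Sw (t0 b R e : ℝ) {p : ℕ} (hp : 2 ≤ p) (c : ℕ) (X W : Finset ℤ) (z x : ℤ)
    (hx : x ∈ X) (hz : z ∈ W) : {l | Sw t0 b R e p c X W z l x}.Nonempty := by
  obtain ⟨J1, h1⟩ := exists_singleton p hp X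
  obtain ⟨J2, h2⟩ := exists_singleton p hp W
  refine ⟨max J1 (J2 + c), Or.inr (Or.inl ⟨?_, ?_⟩)⟩
  · rw [h1 _ (le_max_left _ _) x hx, Finset.card_singleton]
  · rw [h2 _ (by omega) z hz, Finset.card_singleton]

theorem Sw_cls {t0 b R e : ℝ} {p c j l : ℕ} (h : j ≤ l) {X W : Finset ℤ} {z x x' : ℤ}
    (hx : x' ∈ cls p l X x) : Sw t0 b R e p c X W z j x' ↔ Sw t0 b R e p c X W z j x := by
  have h1 : rw' p c j X W x' z = rw' p c j X W x z := by
    unfold rw'
    congr 1
    refine Finset.sum_congr rfl fun i hi => ?_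
    exact al_cls ((Finset.mem_range.1 hi).le.trans h) hx
  have h2 : Lam t0 b (fun i => al p i X x') (fun i => ell p i W z) c (j + 1) =
      Lam t0 b (fun i => al p i X x) (fun i => ell p i W z) c (j + 1) := by
    unfold Lam
    refine Finset.sum_congr rfl fun i hi => ?_
    have h3 : i ≤ l := by
      have := Finset.mem_range.1 hi
      omega
    simp only [al_cls h3 hx]
  unfold Sw
  rw [h1, h2, al_cls h hx, cls_eq (mem_cls.1 (cls_anti p h X x hx)).2]

theorem Tw_cls {t0 b R e : ℝ} {p c : ℕ} (hp : 2 ≤ p) {X W : Finset ℤ} {z x x' : ℤ} {l : ℕ}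
    (hxX : x ∈ X) (hz : z ∈ W) (hl : l ≤ Tw t0 b R e p c X W z x) (hx : x' ∈ cls p l X x) :
    l ≤ Tw t0 b R e p c X W z x' ∧
      (Tw t0 b R e p c X W z x = l → Tw t0 b R e p c X W z x' = l) := by
  have h1 : Sw t0 b R e p c X W z (Tw t0 b R e p c X W z x) x :=
    Nat.sInf_mem (exists_Sw t0 b R e hp c X W z x hxX hz)
  have h2 : Sw t0 b R e p c X W z (Tw t0 b R e p c X W z x') x' :=
    Nat.sInf_mem (exists_Sw t0 b R e hp c X W z x' (mem_cls.1 hx).1 hz)
  have h3 : l ≤ Tw t0 b R e p c X W z x' := by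
    by_contra hcon
    rw [not_le] at hcon
    have h4 := (Sw_cls hcon.le hx).1 h2
    have h5 : Tw t0 b R e p c X W z x ≤ Tw t0 b R e p c X W z x' := Nat.sInf_le h4
    omega
  refine ⟨h3, fun h => le_antisymm ?_ h3⟩
  rw [h] at h1
  exact Nat.sInf_le (s := {l | Sw t0 b R e p c X W z l x'}) ((Sw_cls le_rfl hx).2 h1)

/-- the leaf of `x` -/
noncomputable def leaf (t0 b R e : ℝ) (p c : ℕ) (X W : Finset ℤ) (z : ℤ) (x : ℤ) : Finset ℤ :=
  cls p (Tw t0 b R e p c X W z x) X x

theorem Tw_leaf {t0 b R e : ℝ} {p c : ℕ} (hp : 2 ≤ p) {X W : Finset ℤ} {z x x' : ℤ}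
    (hxX : x ∈ X) (hz : z ∈ W) (hx : x' ∈ leaf t0 b R e p c X W z x) :
    Tw t0 b R e p c X W z x' = Tw t0 b R e p c X W z x :=
  (Tw_cls hp hxX hz le_rfl hx).2 rfl

theorem leaf_leaf {t0 b R e : ℝ} {p c : ℕ} (hp : 2 ≤ p) {X W : Finset ℤ} {z x x' : ℤ}
    (hxX : x ∈ X) (hz : z ∈ W) (hx : x' ∈ leaf t0 b R e p c X W z x) :
    leaf t0 b R e p c X W z x' = leaf t0 b R e p c X W z x := by
  have h1 := Tw_leaf hp hxX hz hx
  unfold leaf at hx ⊢
  rw [h1, cls_eq (mem_cls.1 hx).2]

/-- the coincidences before the stopping level are few -/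
theorem Lam_le {t0 b R e : ℝ} (heR : 0 ≤ e * R) {p c : ℕ} {X W : Finset ℤ} {z x : ℤ} :
    ∀ m, m ≤ Tw t0 b R e p c X W z x →
      Lam t0 b (fun i => al p i X x) (fun i => ell p i W z) c m ≤ e * R := by
  intro m
  induction m with
  | zero =>
    intro _
    unfold Lam
    simpa using heR
  | succ m ih =>
    intro hm
    have h1 : ¬ Sw t0 b R e p c X W z m x := fun h => by
      have h2 : Tw t0 b R e p c X W z x ≤ m := Nat.sInf_le h
      omega
    have h2 := ih (by omega)
    by_cases h3 : t0 ≤ al p m X x ∧ b ≤ shf (fun i => ell p i W z) c m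
    · by_contra hcon
      exact h1 (Or.inr (Or.inr ⟨h3, not_le.1 hcon⟩))
    · have h4 : Lam t0 b (fun i => al p i X x) (fun i => ell p i W z) c (m + 1) =
          Lam t0 b (fun i => al p i X x) (fun i => ell p i W z) c m := by
        unfold Lam
        rw [Finset.sum_range_succ, if_neg h3, add_zero]
      rw [h4]
      exact h2

/-- the stopping level of `W` is one of the announced stopping levels of the code -/
theorem lev_eq {t0 b R e : ℝ} (ht0 : 0 < t0) {p : ℕ} (hp : p.Prime) {D n : ℕ} (hD : D ≠ 0)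
    (hRn : R ≤ t0 * n) (X W : Finset ℤ) (x z : ℤ) (hx : x ∈ X) (hz : z ∈ W) :
    ∃ i ∈ Finset.range (n + 2), lev t0 R p X (sm D W) i x ((D : ℤ) * z) =
      Tw t0 b R e p (padicValNat p D) X W z x := by
  classical
  obtain ⟨T, hT⟩ : ∃ T, T = Tw t0 b R e p (padicValNat p D) X W z x := ⟨_, rfl⟩
  have h1 : Sw t0 b R e p (padicValNat p D) X W z T x := by
    rw [hT]
    exact Nat.sInf_mem (exists_Sw t0 b R e hp.two_le _ X W z x hx hz)
  have hlt : ∀ l < T, ¬ Sw t0 b R e p (padicValNat p D) X W z l x := by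
    intro l hl h
    have h2 : Tw t0 b R e p (padicValNat p D) X W z x ≤ l := Nat.sInf_le h
    omega
  have hSt : ∀ i l, St t0 R p X (sm D W) i l x ((D : ℤ) * z) ↔
      (R ≤ rw' p (padicValNat p D) l X W x z ∨ ((cls p l X x).card = 1 ∧
        (cls p (l - padicValNat p D) W z).card = 1) ∨
        (t0 ≤ al p l X x ∧ nbig t0 p l X x = i)) := by
    intro i l
    unfold St
    rw [rev_sm hp hD, cls_sm hp hD, card_sm hD]
  -- few big levels
  have hnb : ∀ l, rw' p (padicValNat p D) l X W x z < R → nbig t0 p l X x < n := by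
    intro l hl
    have h2 : (nbig t0 p l X x : ℝ) * t0 ≤ rw' p (padicValNat p D) l X W x z := by
      unfold rw' nbig
      have h3 : 0 ≤ ∑ i ∈ Finset.range (l - padicValNat p D), ell p i W z :=
        Finset.sum_nonneg fun i _ => ell_nonneg p i W z hz
      have h4 : ∑ i ∈ (Finset.range l).filter (fun i => t0 ≤ al p i X x), t0 ≤
          ∑ i ∈ (Finset.range l).filter (fun i => t0 ≤ al p i X x), al p i X x :=
        Finset.sum_le_sum fun i hi => (Finset.mem_filter.1 hi).2
      have h5 : ∑ i ∈ (Finset.range l).filter (fun i => t0 ≤ al p i X x), al p i X x ≤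
          ∑ i ∈ Finset.range l, al p i X x :=
        Finset.sum_le_sum_of_subset_of_nonneg (Finset.filter_subset _ _)
          fun i _ _ => al_nonneg p i X x
      rw [Finset.sum_const, nsmul_eq_mul] at h4
      linarith
    have h3 : (nbig t0 p l X x : ℝ) * t0 < t0 * n := by linarith
    have h4 : (nbig t0 p l X x : ℝ) < n := by
      rw [mul_comm] at h3
      exact lt_of_mul_lt_mul_left h3 ht0.le
    exact_mod_cast h4
  rw [← hT]
  by_cases hA : R ≤ rw' p (padicValNat p D) T X W x z ∨ ((cls p T X x).card = 1 ∧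
        (cls p (T - padicValNat p D) W z).card = 1)
  · refine ⟨n + 1, by simp, ?_⟩
    refine le_antisymm (Nat.sInf_le ((hSt _ _).2 ?_)) ?_
    · rcases hA with h | h
      · exact Or.inl h
      · exact Or.inr (Or.inl h)
    · by_contra hcon
      rw [not_le] at hcon
      obtain ⟨l, hl⟩ : ∃ l, l = lev t0 R p X (sm D W) (n + 1) x ((D : ℤ) * z) := ⟨_, rfl⟩
      rw [← hl] at hcon
      have h2 : St t0 R p X (sm D W) (n + 1) l x ((D : ℤ) * z) := by
        rw [hl]
        refine Nat.sInf_mem (s := {l | St t0 R p X (sm D W) (n + 1) l x ((D : ℤ) * z)})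
          ⟨T, (hSt _ _).2 ?_⟩
        rcases hA with h | h
        · exact Or.inl h
        · exact Or.inr (Or.inl h)
      rw [hSt] at h2
      have h3 := hlt l hcon
      unfold Sw at h3
      push Not at h3
      rcases h2 with h | h | h
      · exact absurd h (not_le.2 h3.1)
      · exact h3.2.1 h.1 h.2
      · have := hnb l h3.1
        omega
  · push Not at hA
    have hB : (t0 ≤ al p T X x ∧ b ≤ shf (fun i => ell p i W z) (padicValNat p D) T) ∧
      e * R < Lam t0 b (fun i => al p i X x) (fun i => ell p i W z) (padicValNat p D) (T + 1) := by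
      rcases h1 with h | h | h
      · exact absurd h (not_le.2 hA.1)
      · exact absurd h.2 (hA.2 h.1)
      · exact h
    have hn := hnb T hA.1
    refine ⟨nbig t0 p T X x, by rw [Finset.mem_range]; omega, ?_⟩
    have hT' : St t0 R p X (sm D W) (nbig t0 p T X x) T x ((D : ℤ) * z) :=
      (hSt _ _).2 (Or.inr (Or.inr ⟨hB.1.1, rfl⟩))
    refine le_antisymm (Nat.sInf_le hT') ?_
    by_contra hcon
    rw [not_le] at hcon
    obtain ⟨l, hl⟩ : ∃ l, l = lev t0 R p X (sm D W) (nbig t0 p T X x) x ((D : ℤ) * z) := ⟨_, rfl⟩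
    rw [← hl] at hcon
    have h2 : St t0 R p X (sm D W) (nbig t0 p T X x) l x ((D : ℤ) * z) := by
      rw [hl]
      exact Nat.sInf_mem (s := {l | St t0 R p X (sm D W) (nbig t0 p T X x) l x ((D : ℤ) * z)})
        ⟨T, hT'⟩
    rw [hSt] at h2
    have h3 := hlt l hcon
    unfold Sw at h3
    push Not at h3
    rcases h2 with h | h | h
    · exact absurd h (not_le.2 h3.1)
    · exact h3.2.1 h.1 h.2
    · have h4 : nbig t0 p l X x < nbig t0 p T X x := by
        unfold nbig
        refine Finset.card_lt_card ?_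
        rw [Finset.ssubset_iff_of_subset (Finset.filter_subset_filter _
          (Finset.range_subset_range.2 hcon.le))]
        exact ⟨l, Finset.mem_filter.2 ⟨Finset.mem_range.2 hcon, h.1⟩, by simp⟩
      omega

end Pool.Agent.Helper62.GLP
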